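import Pool.Agent.Lib.MP_66cd2e_lc.CL.Defs

/-!
# JOB Asy (CL): the asymptotics

`hup`: `varNumber n ≤ Nat.log 2 n + 1 ≤ logb 2 n + 1`.
`hlow`: with `m = 4^ρ b`: `m ≤ varNumber n + 3 b 2^ρ + 1` (real numbers: `varNumber n ≥ m (1 - 3/2^ρ) - 1`) as soon as `n ≥ N₀(m) = 1 + 4 (m+1)² 2^(m+1) (m+1) + m 3^(m/2) + 9 m²`.
Proof of the limit: let `ε ∈ (0, 1)`; choose `ρ` with `3/2^ρ ≤ ε/4`.  For `L = logb 2 n` let `b = ⌊(1 - ε/4) L / 4^ρ⌋`, so `(1 - ε/4) L - 4^ρ ≤ m ≤ (1 - ε/4) L`, and `N₀(m) ≤ C (m+1)³ 2^m ≤ C (L+1)³ n^(1 - ε/4) ≤ n` for large `n`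
(`3^(m/2) ≤ 2^m` because `3 ≤ 4`; `m²≤ 2^m * ..`).  So `varNumber n ≥ ((1 - ε/4) L - 4^ρ)(1 - ε/4) - 1 ≥ (1 - ε) L` for large `n`.
(For instance `Metric.tendsto_atTop` or `tendsto_order`: for `a < 1` eventually `a < varNumber n / L`, for `a > 1` eventually `varNumber n / L < a`.)
-/

set_option autoImplicit false

namespace Pool.Agent.Lib.MP_66cd2e_lc.CL

open Filter Topology

private theorem Asy_N0 (m : ℕ) : 1 + 4 * (m + 1) ^ 2 * 2 ^ (m + 1) * (m + 1) + m * 3 ^ (m / 2) + 9 * m ^ 2 ≤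
    19 * (m + 1) ^ 3 * 2 ^ m := by
  have h1 : 3 ^ (m / 2) ≤ 2 ^ m := by
    calc 3 ^ (m / 2) ≤ 4 ^ (m / 2) := Nat.pow_le_pow_left (by norm_num) _
      _ = 2 ^ (2 * (m / 2)) := by rw [pow_mul]; norm_num
      _ ≤ 2 ^ m := Nat.pow_le_pow_right (by norm_num) (Nat.mul_div_le m 2)
  have h2 : 1 ≤ 2 ^ m := Nat.one_le_two_pow
  have h3 : m ≤ (m + 1) ^ 3 := by nlinarith [sq_nonneg m, Nat.zero_le m, Nat.zero_le (m ^ 3)]
  have h4 : m ^ 2 ≤ (m + 1) ^ 3 := by nlinarith [sq_nonneg m, Nat.zero_le m, Nat.zero_le (m ^ 3)]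
  have h5 : 1 ≤ (m + 1) ^ 3 := Nat.one_le_pow _ _ (Nat.succ_pos m)
  have h6 : m * 3 ^ (m / 2) ≤ (m + 1) ^ 3 * 2 ^ m := Nat.mul_le_mul h3 h1
  have h7 : 9 * m ^ 2 ≤ 9 * ((m + 1) ^ 3 * 2 ^ m) := by
    apply Nat.mul_le_mul_left
    calc m ^ 2 = m ^ 2 * 1 := (mul_one _).symm
      _ ≤ (m + 1) ^ 3 * 2 ^ m := Nat.mul_le_mul h4 h2
  have h8 : 1 ≤ (m + 1) ^ 3 * 2 ^ m := by
    calc 1 = 1 * 1 := rfl
      _ ≤ (m + 1) ^ 3 * 2 ^ m := Nat.mul_le_mul h5 h2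
  have h9 : 4 * (m + 1) ^ 2 * 2 ^ (m + 1) * (m + 1) = 8 * ((m + 1) ^ 3 * 2 ^ m) := by ring
  rw [h9]
  calc 1 + 8 * ((m + 1) ^ 3 * 2 ^ m) + m * 3 ^ (m / 2) + 9 * m ^ 2
      ≤ (m + 1) ^ 3 * 2 ^ m + 8 * ((m + 1) ^ 3 * 2 ^ m) + (m + 1) ^ 3 * 2 ^ m +
        9 * ((m + 1) ^ 3 * 2 ^ m) := by omega
    _ = 19 * (m + 1) ^ 3 * 2 ^ m := by ring

private theorem Asy_exp {c : ℝ} (hc : 0 < c) :
    ∀ᶠ x : ℝ in atTop, 19 * (x + 1) ^ 3 ≤ (2 : ℝ) ^ (c * x) := by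
  have hl : 0 < c * Real.log 2 := mul_pos hc (Real.log_pos (by norm_num))
  have h1 := (isLittleO_pow_exp_pos_mul_atTop (k := 3) hl).def (show (0 : ℝ) < 1 / 152 by norm_num)
  filter_upwards [h1, eventually_ge_atTop (1 : ℝ)] with x hx hx1
  rw [Real.norm_eq_abs, Real.norm_eq_abs, abs_of_nonneg (by positivity), abs_of_nonneg (Real.exp_pos _).le] at hx
  have h2 : (2 : ℝ) ^ (c * x) = Real.exp (c * Real.log 2 * x) := by
    rw [Real.rpow_def_of_pos (by norm_num)]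
    congr 1
    ring
  rw [h2]
  have h3 : (x + 1) ^ 3 ≤ (2 * x) ^ 3 := pow_le_pow_left₀ (by linarith) (by linarith) 3
  have h4 : (2 * x) ^ 3 = 8 * x ^ 3 := by ring
  nlinarith

theorem asy (v : ℕ → ℕ) (hup : ∀ n : ℕ, v n ≤ Nat.log 2 n + 1)
    (hlow : ∀ ρ b n : ℕ, 1 + 4 * (4 ^ ρ * b + 1) ^ 2 * 2 ^ (4 ^ ρ * b + 1) * (4 ^ ρ * b + 1) +
      4 ^ ρ * b * 3 ^ (4 ^ ρ * b / 2) + 9 * (4 ^ ρ * b) ^ 2 ≤ n → 4 ^ ρ * b ≤ v n + 3 * (b * 2 ^ ρ) + 1) :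
    Tendsto (fun n : ℕ => (v n : ℝ) / Real.logb 2 n) atTop (𝓝 1) := by
  have hL : Tendsto (fun n : ℕ => Real.logb 2 (n : ℝ)) atTop atTop :=
    (Real.tendsto_logb_atTop (by norm_num)).comp tendsto_natCast_atTop_atTop
  rw [tendsto_order]
  constructor
  · intro a ha
    obtain ⟨ε, hε0, hε1, hεa⟩ : ∃ ε : ℝ, 0 < ε ∧ ε < 1 ∧ a ≤ 1 - ε :=
      ⟨min (1 - a) (1 / 2), lt_min (by linarith) (by norm_num),
        lt_of_le_of_lt (min_le_right _ _) (by norm_num), by linarith [min_le_left (1 - a) (1 / 2)]⟩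
    obtain ⟨ρ, hρ⟩ : ∃ ρ : ℕ, (1 / 2 : ℝ) ^ ρ < ε / 12 :=
      exists_pow_lt_of_lt_one (by linarith) (by norm_num)
    have hE := hL.eventually (Asy_exp (c := ε / 4) (by linarith))
    have hM := hL.eventually (eventually_gt_atTop (((4 : ℝ) ^ ρ + 1) * (2 / ε)))
    have h0 := hL.eventually (eventually_gt_atTop (0 : ℝ))
    filter_upwards [hE, hM, h0, eventually_ge_atTop 1] with n hE hM h0 hn
    obtain ⟨L, hLn⟩ : ∃ L : ℝ, L = Real.logb 2 (n : ℝ) := ⟨_, rfl⟩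
    rw [← hLn] at hE hM h0 ⊢
    obtain ⟨b, hb⟩ : ∃ b : ℕ, b = ⌊(1 - ε / 4) * L / 4 ^ ρ⌋₊ := ⟨_, rfl⟩
    have hM0 : (0 : ℝ) < 4 ^ ρ := by positivity
    have hX0 : 0 ≤ (1 - ε / 4) * L / 4 ^ ρ := by
      apply div_nonneg (mul_nonneg (by linarith) h0.le) hM0.le
    have hb1 : (b : ℝ) ≤ (1 - ε / 4) * L / 4 ^ ρ := by
      rw [hb]
      exact Nat.floor_le hX0
    have hb2 : (1 - ε / 4) * L / 4 ^ ρ < b + 1 := by
      rw [hb]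
      exact Nat.lt_floor_add_one _
    have hm1 : (4 : ℝ) ^ ρ * b ≤ (1 - ε / 4) * L := by
      rw [le_div_iff₀ hM0] at hb1
      linarith
    have hm2 : (1 - ε / 4) * L < (4 : ℝ) ^ ρ * b + 4 ^ ρ := by
      rw [div_lt_iff₀ hM0] at hb2
      linarith
    have hmcast : (((4 ^ ρ * b : ℕ)) : ℝ) = 4 ^ ρ * b := by push_cast; ring
    have hm0 : (0 : ℝ) ≤ (4 : ℝ) ^ ρ * b := by positivity
    have hnL : (n : ℝ) = 2 ^ L := by
      rw [hLn, Real.rpow_logb (by norm_num) (by norm_num)]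
      exact_mod_cast (show 0 < n by omega)
    have hN : 19 * (4 ^ ρ * b + 1) ^ 3 * 2 ^ (4 ^ ρ * b) ≤ n := by
      have h1 : ((19 * (4 ^ ρ * b + 1) ^ 3 * 2 ^ (4 ^ ρ * b) : ℕ) : ℝ) ≤ (n : ℝ) := by
        push_cast
        have h2 : (2 : ℝ) ^ (4 ^ ρ * b) = (2 : ℝ) ^ ((4 : ℝ) ^ ρ * b) := by
          rw [← hmcast, Real.rpow_natCast]
        rw [h2]
        have h3 : (2 : ℝ) ^ ((4 : ℝ) ^ ρ * b) ≤ (2 : ℝ) ^ ((1 - ε / 4) * L) :=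
          Real.rpow_le_rpow_of_exponent_le (by norm_num) hm1
        have h4 : 19 * ((4 : ℝ) ^ ρ * b + 1) ^ 3 ≤ 19 * (L + 1) ^ 3 := by
          have h5 : (4 : ℝ) ^ ρ * b + 1 ≤ L + 1 := by nlinarith
          have h6 : ((4 : ℝ) ^ ρ * b + 1) ^ 3 ≤ (L + 1) ^ 3 := pow_le_pow_left₀ (by linarith) h5 3
          linarith
        calc 19 * ((4 : ℝ) ^ ρ * b + 1) ^ 3 * (2 : ℝ) ^ ((4 : ℝ) ^ ρ * b)
            ≤ 19 * (L + 1) ^ 3 * (2 : ℝ) ^ ((1 - ε / 4) * L) :=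
              mul_le_mul h4 h3 (by positivity) (by positivity)
          _ ≤ (2 : ℝ) ^ (ε / 4 * L) * (2 : ℝ) ^ ((1 - ε / 4) * L) :=
              mul_le_mul_of_nonneg_right hE (by positivity)
          _ = (2 : ℝ) ^ L := by
              rw [← Real.rpow_add (by norm_num)]
              congr 1
              ring
          _ = (n : ℝ) := hnL.symm
      exact_mod_cast h1
    have hv := hlow ρ b n (le_trans (Asy_N0 _) hN)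
    have hv' : (4 : ℝ) ^ ρ * b ≤ v n + 3 * (b * 2 ^ ρ) + 1 := by exact_mod_cast hv
    have h2ρ : (b : ℝ) * 2 ^ ρ = (4 : ℝ) ^ ρ * b * (1 / 2) ^ ρ := by
      have h3 : (4 : ℝ) ^ ρ * (1 / 2) ^ ρ = 2 ^ ρ := by
        rw [← mul_pow]
        norm_num
      rw [← h3]
      ring
    have h3 : 3 * ((b : ℝ) * 2 ^ ρ) ≤ ε / 4 * ((4 : ℝ) ^ ρ * b) := by
      rw [h2ρ]
      nlinarith
    rw [lt_div_iff₀ h0]
    have h4 : (4 : ℝ) ^ ρ * b * (1 - ε / 4) ≤ v n + 1 := by linarith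
    have h5 : ((1 - ε / 4) * L - 4 ^ ρ) * (1 - ε / 4) ≤ (4 : ℝ) ^ ρ * b * (1 - ε / 4) :=
      mul_le_mul_of_nonneg_right (by linarith) (by linarith)
    have h6 : ((4 : ℝ) ^ ρ + 1) < ε / 2 * L := by
      have h7 : ((4 : ℝ) ^ ρ + 1) * (2 / ε) * (ε / 2) < L * (ε / 2) :=
        mul_lt_mul_of_pos_right hM (by linarith)
      have h8 : ((4 : ℝ) ^ ρ + 1) * (2 / ε) * (ε / 2) = (4 : ℝ) ^ ρ + 1 := by
        field_simp
      linarith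
    have h9 : a * L ≤ (1 - ε) * L := mul_le_mul_of_nonneg_right hεa h0.le
    nlinarith [mul_pos hε0 h0, mul_pos hε0 hM0, mul_pos (mul_pos hε0 hε0) h0]
  · intro a ha
    have hM := hL.eventually (eventually_gt_atTop (1 / (a - 1)))
    have h0 := hL.eventually (eventually_gt_atTop (0 : ℝ))
    filter_upwards [hM, h0] with n hM h0
    rw [div_lt_iff₀ h0]
    have h1 : (v n : ℝ) ≤ Real.logb 2 n + 1 := by
      have h2 : (v n : ℝ) ≤ (Nat.log 2 n : ℝ) + 1 := by exact_mod_cast hup n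
      have h3 : (Nat.log 2 n : ℝ) ≤ Real.logb 2 n := by
        exact_mod_cast Real.natLog_le_logb n 2
      linarith
    have ha' : 0 < a - 1 := by linarith
    rw [div_lt_iff₀ ha'] at hM
    linarith

end Pool.Agent.Lib.MP_66cd2e_lc.CL
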