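import Pool.Agent.Lib.MP_66cd2e_lc.CL.Cst

/-!
# JOB Bas (CL): graphs with `m = 4^ρ b` vertices, degrees at most `m / 2`, without holes of size `> m / 2^ρ`

`r = 2 ρ`, `F = ZMod 2`, `F^r = Fin r → F` with the dot product `⟨x, y⟩ = ∑ x_i y_i` (`dotProduct`).  `Fin (4^ρ b)` is in bijection with `(Fin r → F) × Fin b`
(`Fintype.equivFinOfCardEq` or `Fintype.equivOfCardEq`; `4^ρ = 2^(2ρ)`); let `β u ∈ F^r` be the first component.  `G`: `u`, `v` adjacent iff `u ≠ v` and `⟨β u, β v⟩ = 1`.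
* degree: for `x ≠ 0` at most half of the `y ∈ F^r` have `⟨x, y⟩ = 1`: choose `i` with `x_i = 1`; `y ↦ y + e_i` maps `{⟨x,y⟩ = 1}` injectively into `{⟨x,y⟩ = 0}`, so `2 #{⟨x,y⟩ = 1} ≤ 2^r`; for `x = 0` the set is empty.
  So `2 * #{v | G.Adj u v} ≤ 2^r b`.
* hole: `A`, `B` disjoint without edges: `⟨β u, β v⟩ = 0` for all `u ∈ A`, `v ∈ B` (`u ≠ v` by disjointness and `ZMod 2` has two elements).  Let `A' = β(A)`, `B' = β(B)`: `#A ≤ b #A'`, `#B ≤ b #B'` (the fibres of `β` have `b` elements: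
  `Finset.card_le_mul_card_image`), and `#A' #B' ≤ 2^r`: for instance `A' ⊆ ker L`, `L : F^r → (B' → F)`, `L x = (⟨x, y⟩)_{y ∈ B'}` with matrix `M` (rows `y ∈ B'`): `#ker L = 2^(r - rank M)` (rank-nullity), and `B' ⊆` row space, which has `2^(rank M)` elements
  (`Matrix.rank_transpose`, `Module.card_eq_pow_finrank`); or by characters: `∑_{x ∈ F^r} (∑_{y ∈ B'} (-1)^⟨x,y⟩)^2 = 2^r #B'` and the inner sum is `#B'` for `x ∈ A'`.
  So `#A #B ≤ b² 4^ρ = (b 2^ρ)²`, so one of them is `≤ b 2^ρ`.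
-/

set_option autoImplicit false

namespace Pool.Agent.Lib.MP_66cd2e_lc.CL

open Pool.Agent.Lib.MP_66cd2e_lc

/-- The sign. -/
private def BasX (a : ZMod 2) : ℤ := if a = 0 then 1 else -1

private theorem BasX_add : ∀ a b : ZMod 2, BasX (a + b) = BasX a * BasX b := by
  decide

private theorem BasX_succ : ∀ a : ZMod 2, BasX (a + 1) = - BasX a := by
  decide

private theorem Bas_exists {r : ℕ} {w : Fin r → ZMod 2} (hw : w ≠ 0) : ∃ i, w i = 1 := by
  by_contra h
  apply hw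
  funext i
  have h1 : ∀ a : ZMod 2, a ≠ 1 → a = 0 := by decide
  exact h1 _ fun h2 => h ⟨i, h2⟩

private theorem Bas_flip {r : ℕ} {w : Fin r → ZMod 2} {i : Fin r} (hi : w i = 1)
    (x : Fin r → ZMod 2) : w ⬝ᵥ (x + Pi.single i 1) = w ⬝ᵥ x + 1 := by
  rw [dotProduct_add, dotProduct_single, hi, one_mul]

private theorem Bas_half {r : ℕ} (w : Fin r → ZMod 2) :
    2 * (Finset.univ.filter fun x : Fin r → ZMod 2 => w ⬝ᵥ x = 1).card ≤ 2 ^ r := by
  classical
  by_cases hw : w = 0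
  · subst hw
    have h1 : (Finset.univ.filter fun x : Fin r → ZMod 2 => (0 : Fin r → ZMod 2) ⬝ᵥ x = 1) = ∅ := by
      refine Finset.filter_eq_empty_iff.2 fun x _ h => ?_
      rw [zero_dotProduct] at h
      exact zero_ne_one h
    rw [h1, Finset.card_empty, mul_zero]
    exact Nat.zero_le _
  · obtain ⟨i, hi⟩ := Bas_exists hw
    have h1 : (Finset.univ.filter fun x : Fin r → ZMod 2 => w ⬝ᵥ x = 1).card ≤
        (Finset.univ.filter fun x : Fin r → ZMod 2 => ¬ w ⬝ᵥ x = 1).card := by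
      refine Finset.card_le_card_of_injOn (fun x => x + Pi.single i 1) ?_ ?_
      · intro x hx
        have hx1 : w ⬝ᵥ x = 1 := (Finset.mem_filter.1 hx).2
        refine Finset.mem_coe.2 (Finset.mem_filter.2 ⟨Finset.mem_univ _, ?_⟩)
        rw [Bas_flip hi, hx1]
        decide
      · intro x _ y _ hxy
        exact add_right_cancel hxy
    have h2 := Finset.card_filter_add_card_filter_not (s := Finset.univ)
      (fun x : Fin r → ZMod 2 => w ⬝ᵥ x = 1)
    have h3 : (Finset.univ : Finset (Fin r → ZMod 2)).card = 2 ^ r := by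
      rw [Finset.card_univ, Fintype.card_fun, ZMod.card, Fintype.card_fin]
    omega

private theorem Bas_sum {r : ℕ} {w : Fin r → ZMod 2} (hw : w ≠ 0) :
    ∑ x : Fin r → ZMod 2, BasX (w ⬝ᵥ x) = 0 := by
  obtain ⟨i, hi⟩ := Bas_exists hw
  have h1 : ∑ x : Fin r → ZMod 2, BasX (w ⬝ᵥ (x + Pi.single i 1)) =
      ∑ x : Fin r → ZMod 2, BasX (w ⬝ᵥ x) :=
    Equiv.sum_comp (Equiv.addRight (Pi.single i 1 : Fin r → ZMod 2)) fun x => BasX (w ⬝ᵥ x)
  have h2 : ∑ x : Fin r → ZMod 2, BasX (w ⬝ᵥ (x + Pi.single i 1)) =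
      - ∑ x : Fin r → ZMod 2, BasX (w ⬝ᵥ x) := by
    rw [← Finset.sum_neg_distrib]
    refine Finset.sum_congr rfl fun x _ => ?_
    rw [Bas_flip hi, BasX_succ]
  omega

private theorem Bas_eq {r : ℕ} {x y : Fin r → ZMod 2} (h : x + y = 0) : x = y := by
  funext i
  have h1 : x i + y i = 0 := congrFun h i
  have h2 : ∀ a b : ZMod 2, a + b = 0 → a = b := by decide
  exact h2 _ _ h1

private theorem Bas_self {r : ℕ} (x : Fin r → ZMod 2) : x + x = 0 := by
  funext i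
  have h2 : ∀ a : ZMod 2, a + a = 0 := by decide
  exact h2 _

private theorem Bas_sq {r : ℕ} (B : Finset (Fin r → ZMod 2)) :
    ∑ x : Fin r → ZMod 2, (∑ y ∈ B, BasX (y ⬝ᵥ x)) ^ 2 = 2 ^ r * B.card := by
  classical
  have h1 : ∀ x : Fin r → ZMod 2, (∑ y ∈ B, BasX (y ⬝ᵥ x)) ^ 2 =
      ∑ y ∈ B, ∑ z ∈ B, BasX ((y + z) ⬝ᵥ x) := by
    intro x
    rw [sq, Finset.sum_mul_sum]
    refine Finset.sum_congr rfl fun y _ => Finset.sum_congr rfl fun z _ => ?_
    rw [add_dotProduct, BasX_add]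
  rw [Finset.sum_congr rfl fun x _ => h1 x, Finset.sum_comm]
  have h2 : ∀ y ∈ B, ∑ x : Fin r → ZMod 2, ∑ z ∈ B, BasX ((y + z) ⬝ᵥ x) = 2 ^ r := by
    intro y hy
    rw [Finset.sum_comm, Finset.sum_eq_single y]
    · rw [Bas_self]
      have h3 : ∀ x : Fin r → ZMod 2, BasX ((0 : Fin r → ZMod 2) ⬝ᵥ x) = 1 := by
        intro x
        rw [zero_dotProduct]
        rfl
      rw [Finset.sum_congr rfl fun x _ => h3 x, Finset.sum_const, Finset.card_univ,
        Fintype.card_fun, ZMod.card, Fintype.card_fin, nsmul_eq_mul, mul_one]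
      push_cast
      rfl
    · intro z _ hz
      refine Bas_sum fun h => hz ?_
      exact (Bas_eq h).symm
    · intro h
      exact absurd hy h
  rw [Finset.sum_congr rfl h2, Finset.sum_const, nsmul_eq_mul, mul_comm]

private theorem Bas_mul {r : ℕ} (A B : Finset (Fin r → ZMod 2))
    (h : ∀ x ∈ A, ∀ y ∈ B, y ⬝ᵥ x = 0) : A.card * B.card ≤ 2 ^ r := by
  rcases Nat.eq_zero_or_pos B.card with h0 | h0
  · rw [h0, mul_zero]
    exact Nat.zero_le _
  · have h1 : ∑ x ∈ A, (∑ y ∈ B, BasX (y ⬝ᵥ x)) ^ 2 ≤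
        ∑ x : Fin r → ZMod 2, (∑ y ∈ B, BasX (y ⬝ᵥ x)) ^ 2 :=
      Finset.sum_le_sum_of_subset_of_nonneg (Finset.subset_univ A) fun x _ _ => sq_nonneg _
    have h2 : ∀ x ∈ A, (∑ y ∈ B, BasX (y ⬝ᵥ x)) ^ 2 = (B.card : ℤ) ^ 2 := by
      intro x hx
      have h3 : ∀ y ∈ B, BasX (y ⬝ᵥ x) = 1 := by
        intro y hy
        rw [h x hx y hy]
        rfl
      rw [Finset.sum_congr rfl h3, Finset.sum_const, nsmul_eq_mul, mul_one]
    rw [Finset.sum_congr rfl h2, Finset.sum_const, nsmul_eq_mul, Bas_sq] at h1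
    have h4 : A.card * B.card ^ 2 ≤ 2 ^ r * B.card := by exact_mod_cast h1
    have h5 : A.card * B.card * B.card ≤ 2 ^ r * B.card := by
      calc A.card * B.card * B.card = A.card * B.card ^ 2 := by ring
        _ ≤ _ := h4
    exact Nat.le_of_mul_le_mul_right h5 h0

private theorem Bas_image {r b : ℕ} {U : Type} (e : U ≃ (Fin r → ZMod 2) × Fin b) (A : Finset U) :
    A.card ≤ b * (A.image fun u => (e u).1).card := by
  classical
  refine Finset.card_le_mul_card_image A b fun x _ => ?_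
  have h1 : (A.filter fun u => (e u).1 = x).card ≤ (Finset.univ : Finset (Fin b)).card := by
    refine Finset.card_le_card_of_injOn (fun u => (e u).2) (fun _ _ => Finset.mem_coe.2
      (Finset.mem_univ _)) ?_
    intro u hu v hv huv
    have hu1 : (e u).1 = x := (Finset.mem_filter.1 hu).2
    have hv1 : (e v).1 = x := (Finset.mem_filter.1 hv).2
    exact e.injective (Prod.ext (hu1.trans hv1.symm) huv)
  rwa [Finset.card_univ, Fintype.card_fin] at h1

theorem exists_base (ρ b : ℕ) : ∃ G : SimpleGraph (Fin (4 ^ ρ * b)),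
    (∀ u, 2 * Nat.card {v // G.Adj u v} ≤ 4 ^ ρ * b) ∧ Hole G (b * 2 ^ ρ) := by
  classical
  have h4 : 4 ^ ρ = 2 ^ (2 * ρ) := by
    rw [pow_mul]
    norm_num
  have hcard : Fintype.card (Fin (4 ^ ρ * b)) = Fintype.card ((Fin (2 * ρ) → ZMod 2) × Fin b) := by
    rw [Fintype.card_fin, Fintype.card_prod, Fintype.card_fun, ZMod.card, Fintype.card_fin,
      Fintype.card_fin, h4]
  obtain ⟨e⟩ : Nonempty (Fin (4 ^ ρ * b) ≃ (Fin (2 * ρ) → ZMod 2) × Fin b) :=
    ⟨Fintype.equivOfCardEq hcard⟩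
  let G : SimpleGraph (Fin (4 ^ ρ * b)) :=
    { Adj := fun u v => u ≠ v ∧ (e u).1 ⬝ᵥ (e v).1 = 1
      symm := ⟨fun u v h => ⟨h.1.symm, by
        rw [dotProduct_comm]
        exact h.2⟩⟩
      loopless := ⟨fun u h => h.1 rfl⟩ }
  have hG : ∀ u v, G.Adj u v ↔ u ≠ v ∧ (e u).1 ⬝ᵥ (e v).1 = 1 := fun u v => Iff.rfl
  refine ⟨G, fun u => ?_, ?_⟩
  · have h1 : Nat.card {v // G.Adj u v} ≤ Nat.card ({x // (e u).1 ⬝ᵥ x = 1} × Fin b) := by
      refine Nat.card_le_card_of_injective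
        (fun v : {v // G.Adj u v} => (⟨(e v.1).1, ((hG u v.1).1 v.2).2⟩, (e v.1).2)) ?_
      intro v w hvw
      have h2 : (e v.1).1 = (e w.1).1 := congrArg (fun p => (p.1 : Fin (2 * ρ) → ZMod 2)) hvw
      have h3 : (e v.1).2 = (e w.1).2 :=
        congrArg (fun p : {x // (e u).1 ⬝ᵥ x = 1} × Fin b => p.2) hvw
      exact Subtype.ext (e.injective (Prod.ext h2 h3))
    have h2 : Nat.card ({x : Fin (2 * ρ) → ZMod 2 // (e u).1 ⬝ᵥ x = 1} × Fin b) =
        (Finset.univ.filter fun x : Fin (2 * ρ) → ZMod 2 => (e u).1 ⬝ᵥ x = 1).card * b := by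
      rw [Nat.card_prod, Nat.card_eq_fintype_card, Nat.card_eq_fintype_card, Fintype.card_fin,
        Fintype.card_subtype]
    have h3 := Bas_half (e u).1
    rw [h2] at h1
    calc 2 * Nat.card {v // G.Adj u v} ≤
        2 * ((Finset.univ.filter fun x : Fin (2 * ρ) → ZMod 2 => (e u).1 ⬝ᵥ x = 1).card * b) :=
          Nat.mul_le_mul_left 2 h1
      _ = 2 * (Finset.univ.filter fun x : Fin (2 * ρ) → ZMod 2 => (e u).1 ⬝ᵥ x = 1).card * b :=
          (mul_assoc _ _ _).symm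
      _ ≤ 2 ^ (2 * ρ) * b := Nat.mul_le_mul_right b h3
      _ = 4 ^ ρ * b := by rw [h4]
  · intro A B hd hAB
    by_contra hcon
    rw [not_or, not_le, not_le] at hcon
    have h1 : ∀ x ∈ A.image (fun u => (e u).1), ∀ y ∈ B.image (fun u => (e u).1), y ⬝ᵥ x = 0 := by
      intro x hx y hy
      obtain ⟨u, hu, rfl⟩ := Finset.mem_image.1 hx
      obtain ⟨v, hv, rfl⟩ := Finset.mem_image.1 hy
      have h2 : ¬ (e u).1 ⬝ᵥ (e v).1 = 1 := by
        intro h
        refine hAB u hu v hv ((hG u v).2 ⟨?_, h⟩)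
        intro huv
        exact Finset.disjoint_left.1 hd hu (huv ▸ hv)
      have h3 : ∀ a : ZMod 2, ¬ a = 1 → a = 0 := by decide
      rw [dotProduct_comm]
      exact h3 _ h2
    have h2 := Bas_mul _ _ h1
    have hA := Bas_image e A
    have hB := Bas_image e B
    have h3 : (b * 2 ^ ρ) * (b * 2 ^ ρ) < A.card * B.card := Nat.mul_lt_mul'' hcon.1 hcon.2
    have h5 : A.card * B.card ≤ (b * (A.image fun u => (e u).1).card) *
        (b * (B.image fun u => (e u).1).card) := Nat.mul_le_mul hA hB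
    have h6 : (b * (A.image fun u => (e u).1).card) * (b * (B.image fun u => (e u).1).card) =
        b * b * ((A.image fun u => (e u).1).card * (B.image fun u => (e u).1).card) := by ring
    have h7 : b * b * ((A.image fun u => (e u).1).card * (B.image fun u => (e u).1).card) ≤
        b * b * 2 ^ (2 * ρ) := Nat.mul_le_mul_left _ h2
    have h8 : (b * 2 ^ ρ) * (b * 2 ^ ρ) = b * b * 2 ^ (2 * ρ) := by
      rw [two_mul, pow_add]
      ring
    omega

end Pool.Agent.Lib.MP_66cd2e_lc.CL
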