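import Pool.Agent.Lib.MP_66cd2e_lc.CL.Defs

/-!
# The construction

`G` a graph on `Fin m`, `Q` a tournament on `Fin N`, `c : Fin m → ZMod 3`.  The vertices of the tournament `TT G Q e c`:

* `z`;
* `r x i`, `x` a vertex of `Q`, `i` in `Option (Fin m)`;
* `g u a`: `a` a function on the neighbours of `u` (`0` elsewhere) with values in `ZMod 3` and sum `c u`;
* `w u j s t`: `{u, j}` an edge of `G`, `u < j`, and `s + t ≠ 0`;
* `p i`, `i < e`: padding.

The arcs: `z → r _ none`, `z → g`, `r _ (some u) → z`, `w → z`; `r x i → r y j` if `x → y` in `Q` or `x = y` and `i < j`;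
`g u → r _ (some u)`, `r _ i → g u` for `i ≠ some u`; `r → w`; `g u a → w u j s t` if `a j ≠ s`, `g j b → w u j s t` if `b u ≠ t`, all other
arcs between `w` and `g` go from `w` to `g`; everything `→ p`; inside the classes `g u` and `w u j` the arc depends only on the difference.
-/

set_option autoImplicit false

namespace Pool.Agent.Lib.MP_66cd2e_lc.CL

open Pool.Agent.Lib.MP_66cd2e_lc

/-- All possible vertices. -/
inductive Pre (m N e : ℕ) : Type
  | z : Pre m N e
  | r (x : Fin N) (i : Option (Fin m)) : Pre m N e
  | g (u : Fin m) (a : Fin m → ZMod 3) : Pre m N e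
  | w (u j : Fin m) (q : ZMod 3 × ZMod 3) : Pre m N e
  | p (i : Fin e) : Pre m N e
  deriving DecidableEq

/-- A translation invariant tournament on a group without elements of order `2`: `a → b` if `tw (b - a)`. -/
def tw {A : Type} [AddGroup A] [Fintype A] (d : A) : Prop :=
  (Fintype.equivFin A d).val < (Fintype.equivFin A (-d)).val

theorem not_tw_zero {A : Type} [AddGroup A] [Fintype A] : ¬ tw (0 : A) := by
  unfold tw
  rw [neg_zero]
  exact lt_irrefl _

theorem tw_neg {A : Type} [AddGroup A] [Fintype A] {d : A} (hd : d ≠ -d) : tw d ↔ ¬ tw (-d) := by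
  unfold tw
  rw [neg_neg, not_lt]
  have h : (Fintype.equivFin A d).val ≠ (Fintype.equivFin A (-d)).val := by
    intro h0
    exact hd ((Fintype.equivFin A).injective (Fin.ext h0))
  omega

theorem ne_neg_fun {m : ℕ} {d : Fin m → ZMod 3} (hd : d ≠ 0) : d ≠ -d := by
  intro h
  apply hd
  funext i
  have h1 : d i = - d i := congrFun h i
  have h2 : ∀ x : ZMod 3, x = -x → x = 0 := by decide
  exact h2 _ h1

theorem ne_neg_pair {d : ZMod 3 × ZMod 3} (hd : d ≠ 0) : d ≠ -d := by
  revert hd
  revert d
  decide

/-- The number of an index. -/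
def ix {m : ℕ} : Option (Fin m) → ℕ
  | none => 0
  | some u => u.val + 1

theorem ix_inj {m : ℕ} {i j : Option (Fin m)} (h : ix i = ix j) : i = j := by
  cases i with
  | none => cases j with
    | none => rfl
    | some v => simp [ix] at h
  | some u => cases j with
    | none => simp [ix] at h
    | some v =>
      simp only [ix, add_left_inj] at h
      rw [Fin.ext h]

/-- The arc from `g u a` to `w v j q` is present. -/
def gw {m : ℕ} (u : Fin m) (a : Fin m → ZMod 3) (v j : Fin m) (q : ZMod 3 × ZMod 3) : Prop :=
  (u = v ∧ a j ≠ q.1) ∨ (u ≠ v ∧ u = j ∧ a v ≠ q.2)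

/-- The arcs. -/
def arcP {m N e : ℕ} (Q : Tournament (Fin N)) : Pre m N e → Pre m N e → Prop
  | .z, .z => False
  | .z, .r _ i => i = none
  | .z, .g _ _ => True
  | .z, .w _ _ _ => False
  | .z, .p _ => True
  | .r _ i, .z => i ≠ none
  | .r x i, .r y j => Q.arc x y ∨ (x = y ∧ ix i < ix j)
  | .r _ i, .g u _ => i ≠ some u
  | .r _ _, .w _ _ _ => True
  | .r _ _, .p _ => True
  | .g _ _, .z => False
  | .g u _, .r _ i => i = some u
  | .g u a, .g v b => u < v ∨ (u = v ∧ tw (b - a))
  | .g u a, .w v j q => gw u a v j q
  | .g _ _, .p _ => True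
  | .w _ _ _, .z => True
  | .w _ _ _, .r _ _ => False
  | .w v j q, .g u a => ¬ gw u a v j q
  | .w u j q, .w u' j' q' => u < u' ∨ (u = u' ∧ (j < j' ∨ (j = j' ∧ tw (q' - q))))
  | .w _ _ _, .p _ => True
  | .p i, .p j => i < j
  | .p _, _ => False

/-- The tournament on all possible vertices. -/
def preT {m N : ℕ} (e : ℕ) (Q : Tournament (Fin N)) : Tournament (Pre m N e) where
  arc := arcP Q
  irrefl := by
    intro v
    cases v with
    | z => exact id
    | r x i => exact fun h => h.elim (Q.irrefl x) fun h => lt_irrefl _ h.2
    | g u a => exact fun h => h.elim (lt_irrefl _) fun h => not_tw_zero (by rw [sub_self] at h; exact h.2)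
    | w u j q =>
      exact fun h => h.elim (lt_irrefl _) fun h => h.2.elim (lt_irrefl _)
        fun h => not_tw_zero (by rw [sub_self] at h; exact h.2)
    | p i => exact lt_irrefl i
  exactlyOne := by
    intro u v huv
    cases u with
    | z => cases v <;> simp_all [arcP]
    | r x i =>
      cases v with
      | z => simp [arcP]
      | r y j =>
        change (Q.arc x y ∨ (x = y ∧ ix i < ix j)) ↔ ¬ (Q.arc y x ∨ (y = x ∧ ix j < ix i))
        by_cases hxy : x = y
        · subst hxy
          have h1 : ix i ≠ ix j := fun h => huv (by rw [ix_inj h])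
          have h2 := Q.irrefl x
          constructor
          · rintro (h | h)
            · exact absurd h h2
            · rintro (h' | h')
              · exact h2 h'
              · omega
          · intro h
            push Not at h
            exact Or.inr ⟨rfl, by have := h.2 rfl; omega⟩
        · have h1 := Q.exactlyOne x y hxy
          constructor
          · rintro (h | h)
            · rintro (h' | h')
              · exact (h1.1 h) h'
              · exact hxy h'.1.symm
            · exact absurd h.1 hxy
          · intro h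
            push Not at h
            exact Or.inl (h1.2 h.1)
      | g u a => simp [arcP]
      | w u j q => simp [arcP]
      | p i => simp [arcP]
    | g u a =>
      cases v with
      | z => simp [arcP]
      | r y j => simp [arcP]
      | g v b =>
        change (u < v ∨ (u = v ∧ tw (b - a))) ↔ ¬ (v < u ∨ (v = u ∧ tw (a - b)))
        rcases lt_trichotomy u v with h | h | h
        · simp [h, h.ne', h.not_gt]
        · subst h
          have hab : b - a ≠ 0 := by
            intro h
            exact huv (by rw [sub_eq_zero.1 h])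
          have h1 := tw_neg (ne_neg_fun hab)
          rw [neg_sub] at h1
          simp [h1]
        · simp [h, h.ne', h.not_gt]
      | w v j q => simp [arcP]
      | p i => simp [arcP]
    | w u j q =>
      cases v with
      | z => simp [arcP]
      | r y j => simp [arcP]
      | g v b => simp [arcP]
      | w u' j' q' =>
        change (u < u' ∨ (u = u' ∧ (j < j' ∨ (j = j' ∧ tw (q' - q))))) ↔
          ¬ (u' < u ∨ (u' = u ∧ (j' < j ∨ (j' = j ∧ tw (q - q')))))
        rcases lt_trichotomy u u' with h | h | h
        · simp [h, h.ne', h.not_gt]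
        · subst h
          rcases lt_trichotomy j j' with h | h | h
          · simp [h, h.ne', h.not_gt]
          · subst h
            have hab : q' - q ≠ 0 := by
              intro h
              exact huv (by rw [sub_eq_zero.1 h])
            have h1 := tw_neg (ne_neg_pair hab)
            rw [neg_sub] at h1
            simp [h1]
          · simp [h, h.ne', h.not_gt]
        · simp [h, h.ne', h.not_gt]
      | p i => simp [arcP]
    | p i =>
      cases v with
      | p j =>
        change i < j ↔ ¬ (j < i)
        have : i ≠ j := fun h => huv (by rw [h])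
        omega
      | z => simp [arcP]
      | r _ _ => simp [arcP]
      | g _ _ => simp [arcP]
      | w _ _ _ => simp [arcP]

/-- The vertices which occur. -/
def Valid {m N e : ℕ} (G : SimpleGraph (Fin m)) (c : Fin m → ZMod 3) : Pre m N e → Prop
  | .g u a => (∀ j, ¬ G.Adj u j → a j = 0) ∧ ∑ j, a j = c u
  | .w u j q => u < j ∧ G.Adj u j ∧ q.1 + q.2 ≠ 0
  | _ => True

/-- The tournament. -/
def TT {m N : ℕ} (G : SimpleGraph (Fin m)) (Q : Tournament (Fin N)) (e : ℕ) (c : Fin m → ZMod 3) :
    Tournament {x : Pre m N e // Valid G c x} where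
  arc x y := (preT e Q).arc x.1 y.1
  irrefl x := (preT e Q).irrefl x.1
  exactlyOne x y hxy := (preT e Q).exactlyOne x.1 y.1 fun h => hxy (Subtype.ext h)

/-- The vertex `z`. -/
def zz {m N e : ℕ} (G : SimpleGraph (Fin m)) (c : Fin m → ZMod 3) : {x : Pre m N e // Valid G c x} :=
  ⟨.z, trivial⟩

/-- Two disjoint sets without edges between them: one of them has at most `h` elements. -/
def Hole {m : ℕ} (G : SimpleGraph (Fin m)) (h : ℕ) : Prop :=
  ∀ A B : Finset (Fin m), Disjoint A B → (∀ u ∈ A, ∀ v ∈ B, ¬ G.Adj u v) → A.card ≤ h ∨ B.card ≤ h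

/-- Every set of at most `r` vertices of `Q` is dominated by a vertex outside of it. -/
def Dom {N : ℕ} (Q : Tournament (Fin N)) (r : ℕ) : Prop :=
  ∀ S : Finset (Fin N), S.card ≤ r → ∃ y, y ∉ S ∧ ∀ s ∈ S, Q.arc y s

end Pool.Agent.Lib.MP_66cd2e_lc.CL
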