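import Pool.Agent.Lib.MP_66cd2e_lc.Defs

/-!
# Counting logic with `k` variables on tournaments: definitions

`Fml k`: the formulas of the infinitary logic with counting quantifiers and the variables `x_i`, `i < k`.
`Sat T φ a`: the formula `φ` is true in `T` if the variables have the values `a`.
`Suffices n k`: for every threshold `d` some formula with `k` variables says, for the tournaments with `n` vertices, that
the domination number is at most `d`.
`varNumber n`: the least number of variables which suffices for the tournaments with `n` vertices.
-/

set_option autoImplicit false

namespace Pool.Agent.Lib.MP_66cd2e_lc.CL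

open Pool.Agent.Lib.MP_66cd2e_lc

/-- The formulas of the infinitary counting logic with the variables `x_i`, `i < k`, for one binary relation
(the arcs): equalities, arcs, negation, conjunctions over arbitrary index sets, and the quantifiers
`there are at least c elements x_i such that ...`. -/
inductive Fml (k : ℕ) : Type 1
  | eq (i j : Fin k) : Fml k
  | arc (i j : Fin k) : Fml k
  | neg (φ : Fml k) : Fml k
  | conj (ι : Type) (φ : ι → Fml k) : Fml k
  | atLeast (c : ℕ) (i : Fin k) (φ : Fml k) : Fml k

/-- The formula `φ` is true in the tournament `T` if the variables have the values `a`. -/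
def Sat {V : Type} (T : Tournament V) {k : ℕ} : Fml k → (Fin k → V) → Prop
  | .eq i j, a => a i = a j
  | .arc i j, a => T.arc (a i) (a j)
  | .neg φ, a => ¬ Sat T φ a
  | .conj _ φ, a => ∀ i, Sat T (φ i) a
  | .atLeast c i φ, a => c ≤ Nat.card {x : V // Sat T φ (Function.update a i x)}

/-- For every threshold `d` some formula `φ` with `k` variables says, for the tournaments with `n` vertices, that the
domination number is at most `d`. -/
def Suffices (n k : ℕ) : Prop :=
  ∀ d : ℕ, ∃ φ : Fml k, ∀ (V : Type) [Fintype V], Fintype.card V = n → ∀ (T : Tournament V) (a : Fin k → V),
    Sat T φ a ↔ domNumber T ≤ d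

/-- The least number of variables which suffices for the tournaments with `n` vertices. -/
noncomputable def varNumber (n : ℕ) : ℕ := sInf {k | Suffices n k}

end Pool.Agent.Lib.MP_66cd2e_lc.CL
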