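import Pool.Agent.Lib.MP_66cd2e_lc.CL.Cst

/-!
# The domination numbers of the two tournaments
-/

set_option autoImplicit false

namespace Pool.Agent.Lib.MP_66cd2e_lc.CL

open Pool.Agent.Lib.MP_66cd2e_lc

instance instFinitePre (m N e : ℕ) : Finite (Pre m N e) := by
  have h : Function.Injective (fun x : Pre m N e => (match x with
    | .z => Sum.inl ()
    | .r x i => Sum.inr (Sum.inl (x, i))
    | .g u a => Sum.inr (Sum.inr (Sum.inl (u, a)))
    | .w u j q => Sum.inr (Sum.inr (Sum.inr (Sum.inl (u, j, q))))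
    | .p i => Sum.inr (Sum.inr (Sum.inr (Sum.inr i))) :
      Unit ⊕ (Fin N × Option (Fin m)) ⊕ (Fin m × (Fin m → ZMod 3)) ⊕
        (Fin m × Fin m × (ZMod 3 × ZMod 3)) ⊕ Fin e)) := by
    intro x y hxy
    cases x <;> cases y <;> simp_all
  exact Finite.of_injective _ h

section

variable {m N e : ℕ}

theorem dom_le (G : SimpleGraph (Fin m)) (Q : Tournament (Fin N)) : domNumber (TT G Q e 0) ≤ m + 1 := by
  classical
  have hv : ∀ u : Fin m, Valid G 0 (.g u 0 : Pre m N e) := fun u => ⟨fun j _ => rfl, by simp⟩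
  obtain ⟨S, hS⟩ : ∃ S : Finset {x : Pre m N e // Valid G 0 x},
      S = insert (zz G 0) (Finset.univ.image fun u : Fin m => (⟨.g u 0, hv u⟩ : {x : Pre m N e // Valid G 0 x})) :=
    ⟨_, rfl⟩
  have hz : zz G 0 ∈ S := by
    rw [hS]
    exact Finset.mem_insert_self _ _
  have hg : ∀ u, (⟨.g u 0, hv u⟩ : {x : Pre m N e // Valid G 0 x}) ∈ S := by
    intro u
    rw [hS]
    exact Finset.mem_insert_of_mem (Finset.mem_image_of_mem _ (Finset.mem_univ u))
  have hdom : IsDominating (TT G Q e 0) S := by
    rintro ⟨x, hx⟩ hxS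
    cases x with
    | z => exact absurd hz hxS
    | r x i =>
      cases i with
      | none => exact ⟨_, hz, rfl⟩
      | some u => exact ⟨_, hg u, rfl⟩
    | g u a => exact ⟨_, hz, trivial⟩
    | w u j q =>
      by_cases hq : q.1 = 0
      · refine ⟨_, hg j, Or.inr ⟨hx.1.ne', rfl, fun h => hx.2.2 ?_⟩⟩
        change (0 : ZMod 3) = q.2 at h
        rw [hq, ← h, add_zero]
      · refine ⟨_, hg u, Or.inl ⟨rfl, fun h => hq ?_⟩⟩
        exact h.symm
    | p i => exact ⟨_, hz, trivial⟩
  have h1 : domNumber (TT G Q e 0) ≤ S.card :=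
    Nat.sInf_le (show S.card ∈ {k : ℕ | ∃ S : Finset {x : Pre m N e // Valid G 0 x},
      IsDominating (TT G Q e 0) S ∧ S.card = k} from ⟨S, hdom, rfl⟩)
  refine h1.trans ?_
  rw [hS]
  refine (Finset.card_insert_le _ _).trans ?_
  have := Finset.card_image_le (s := (Finset.univ : Finset (Fin m)))
    (f := fun u : Fin m => (⟨.g u 0, hv u⟩ : {x : Pre m N e // Valid G 0 x}))
  rw [Finset.card_univ, Fintype.card_fin] at this
  omega

theorem dom_gt (G : SimpleGraph (Fin m)) (Q : Tournament (Fin N)) (hQ : Dom Q (m + 1))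
    {c : Fin m → ZMod 3} (hc : ∑ u, c u ≠ 0) : m + 1 < domNumber (TT G Q e c) := by
  classical
  let _ : Fintype {x : Pre m N e // Valid G c x} := Fintype.ofFinite _
  have hne : Nonempty {x : Pre m N e // Valid G c x} := ⟨zz G c⟩
  by_contra hcon
  push Not at hcon
  obtain ⟨S, hS, hcard⟩ : domNumber (TT G Q e c) ∈
      {k : ℕ | ∃ S : Finset {x : Pre m N e // Valid G c x}, IsDominating (TT G Q e c) S ∧ S.card = k} :=
    Nat.sInf_mem ⟨_, Finset.univ, fun w hw => absurd (Finset.mem_univ w) hw, rfl⟩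
  rw [← hcard] at hcon
  -- the projection to `Q`
  obtain ⟨P, hP⟩ : ∃ P : Finset (Fin N), ∀ x, x ∈ P ↔ ∃ i, ∃ s ∈ S, s.1 = .r x i :=
    ⟨Finset.univ.filter fun x => ∃ i, ∃ s ∈ S, s.1 = .r x i, by simp⟩
  have hPc : P.card ≤ m + 1 := by
    refine le_trans ?_ hcon
    have h1 : ∀ x ∈ P, ∃ s, s ∈ S ∧ ∃ i, s.1 = .r x i := by
      intro x hx
      obtain ⟨i, s, hs, h⟩ := (hP x).1 hx
      exact ⟨s, hs, i, h⟩
    choose! f hf using h1
    refine Finset.card_le_card_of_injOn f (fun x hx => (hf x hx).1) ?_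
    intro x hx y hy hxy
    obtain ⟨i, hi⟩ := (hf x hx).2
    obtain ⟨j, hj⟩ := (hf y hy).2
    rw [hxy, hj] at hi
    injection hi with h1 h2
    exact h1.symm
  obtain ⟨y, hyP, hy⟩ := hQ P hPc
  have hr : ∀ i, (⟨.r y i, trivial⟩ : {x : Pre m N e // Valid G c x}) ∉ S := by
    intro i hi
    exact hyP ((hP y).2 ⟨i, _, hi, rfl⟩)
  -- no vertex of `R` in `S` dominates `r y i`
  have hrr : ∀ (x : Fin N) (j i : Option (Fin m)), ∀ s ∈ S, s.1 = .r x j →
      ¬ (Q.arc x y ∨ (x = y ∧ ix j < ix i)) := by
    intro x j i s hs hsx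
    have hxP : x ∈ P := (hP x).2 ⟨j, s, hs, hsx⟩
    have hxy : x ≠ y := fun h => hyP (h ▸ hxP)
    have h1 := (Q.exactlyOne y x hxy.symm).1 (hy x hxP)
    rintro (h | h)
    · exact h1 h
    · exact hxy h.1
  have hzS : zz G c ∈ S := by
    obtain ⟨⟨v, hv⟩, hvS, harc⟩ := hS _ (hr none)
    change arcP Q v (.r y none) at harc
    cases v with
    | z => exact hvS
    | r x j => exact absurd harc (hrr x j none _ hvS rfl)
    | g u a => exact absurd harc (by simp [arcP])
    | w u j q => exact absurd harc (by simp [arcP])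
    | p i => exact absurd harc (by simp [arcP])
  have hgS : ∀ u : Fin m, ∃ s, s ∈ S ∧ ∃ a, s.1 = .g u a := by
    intro u
    obtain ⟨⟨v, hv⟩, hvS, harc⟩ := hS _ (hr (some u))
    change arcP Q v (.r y (some u)) at harc
    cases v with
    | z => exact absurd harc (by simp [arcP])
    | r x j => exact absurd harc (hrr x j (some u) _ hvS rfl)
    | g u' a =>
      have h : some u = some u' := harc
      injection h with h
      subst h
      exact ⟨_, hvS, a, rfl⟩
    | w u j q => exact absurd harc (by simp [arcP])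
    | p i => exact absurd harc (by simp [arcP])
  choose f hfS a hfa using hgS
  -- `S` is `z` and the `f u`
  have hS0 : S = insert (zz G c) (Finset.univ.image f) := by
    symm
    refine Finset.eq_of_subset_of_card_le ?_ ?_
    · intro x hx
      rcases Finset.mem_insert.1 hx with h | h
      · rw [h]
        exact hzS
      · obtain ⟨u, -, hu⟩ := Finset.mem_image.1 h
        rw [← hu]
        exact hfS u
    · rw [Finset.card_insert_of_notMem, Finset.card_image_of_injective, Finset.card_univ, Fintype.card_fin]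
      · exact hcon
      · intro u v huv
        have h1 := hfa u
        rw [huv, hfa v] at h1
        injection h1 with h2
        exact h2.symm
      · intro h
        obtain ⟨u, -, hu⟩ := Finset.mem_image.1 h
        have h1 := hfa u
        rw [hu] at h1
        exact absurd h1 (by simp [zz])
  have hval : ∀ u, (∀ j, ¬ G.Adj u j → a u j = 0) ∧ ∑ j, a u j = c u := by
    intro u
    have h := (f u).2
    rw [hfa u] at h
    exact h
  have hanti : ∀ u j, u < j → a u j + a j u = 0 := by
    intro u j huj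
    by_cases hadj : G.Adj u j
    · by_contra hne
      have hx : Valid G c (.w u j (a u j, a j u) : Pre m N e) := ⟨huj, hadj, hne⟩
      have hxS : (⟨.w u j (a u j, a j u), hx⟩ : {x : Pre m N e // Valid G c x}) ∉ S := by
        intro h
        rw [hS0] at h
        rcases Finset.mem_insert.1 h with h | h
        · exact absurd (congrArg Subtype.val h) (by simp [zz])
        · obtain ⟨v, -, hv⟩ := Finset.mem_image.1 h
          have h1 := hfa v
          rw [hv] at h1
          exact absurd h1 (by simp)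
      obtain ⟨v, hvS, harc⟩ := hS _ hxS
      change arcP Q v.1 (.w u j (a u j, a j u)) at harc
      rw [hS0] at hvS
      rcases Finset.mem_insert.1 hvS with h | h
      · rw [h] at harc
        exact harc
      · obtain ⟨l, -, hl⟩ := Finset.mem_image.1 h
        rw [← hl, hfa l] at harc
        rcases harc with ⟨h1, h2⟩ | ⟨h1, h2, h3⟩
        · subst h1
          exact h2 rfl
        · subst h2
          exact h3 rfl
    · rw [(hval u).1 j hadj, (hval j).1 u (fun h => hadj h.symm), add_zero]
  have hanti' : ∀ u j, a u j = - a j u := by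
    intro u j
    rcases lt_trichotomy u j with h | h | h
    · exact eq_neg_of_add_eq_zero_left (hanti u j h)
    · subst h
      rw [(hval u).1 u (G.irrefl), neg_zero]
    · exact eq_neg_of_add_eq_zero_right (hanti j u h)
  apply hc
  have h1 : ∑ u, c u = ∑ u, ∑ j, a u j := Finset.sum_congr rfl fun u _ => (hval u).2.symm
  have h2 : ∑ u, ∑ j, a u j = - ∑ u, ∑ j, a u j := by
    calc ∑ u, ∑ j, a u j = ∑ u, ∑ j, - a j u :=
          Finset.sum_congr rfl fun u _ => Finset.sum_congr rfl fun j _ => hanti' u j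
      _ = - ∑ u, ∑ j, a j u := by
          rw [← Finset.sum_neg_distrib]
          exact Finset.sum_congr rfl fun u _ => Finset.sum_neg_distrib _
      _ = - ∑ u, ∑ j, a u j := by rw [Finset.sum_comm]
  have h3 : ∀ x : ZMod 3, x = -x → x = 0 := by decide
  rw [h1]
  exact h3 _ h2

end

end Pool.Agent.Lib.MP_66cd2e_lc.CL
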