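import Pool.Agent.Lib.MP_66cd2e_lc.CL.Cst

/-!
# JOB Ers (CL): tournaments in which every small set is dominated from outside (Erdős)

`Dom Q r`: every set `S` of at most `r` vertices has a vertex `y ∉ S` with `y → s` for all `s ∈ S`.

Proof (counting).  `N = 4 r² 2^r ≥ 8 r ≥ r`.  For `g : Fin N → Fin N → Bool` let `i → j` iff `i ≠ j` and (`xor (g i j) (g j i) = decide (i < j)`); this is a tournament (for `i ≠ j` the value
`xor (g i j) (g j i)` is symmetric and exactly one of `i < j`, `j < i` holds).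
Enough: a `g` that works for all `S` with `S.card = r` (a smaller `S` is contained in one with `r` elements, `Finset.exists_superset_card_eq`; the vertex `y` for the larger set works).
For a fixed `S`, `S.card = r`, let `Bad S` = the `g` with no good `y ∉ S`.  Claim `(Bad S).card * (2^r)^(N-r) ≤ (2^r - 1)^(N-r) * (2^N)^N`: fix the rows `g s`, `s ∈ S`; for every `y ∉ S` the row `g y : Fin N → Bool` must not be in the set of the
rows with `xor (g y s) (g s y) = decide (y < s)` for all `s ∈ S`, i.e. with prescribed values `g y s`, `s ∈ S`; this set has `2^(N-r)` elements, its complement `2^N - 2^(N-r) = 2^(N-r) (2^r - 1)`.  So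
`(Bad S).card = (2^N)^r * (2^(N-r) (2^r - 1))^(N-r)` (or `≤`; use the equivalence `Equiv.piEquivPiSubtypeProd (· ∈ S)` and `Fintype.card_piFinset`, or an induction).
Union bound: the number of `S` is `N.choose r ≤ N^r`, so a good `g` exists if `N^r (2^r - 1)^(N-r) < (2^r)^(N-r)`, i.e. `r log N < (N-r) (-log (1 - 2^(-r)))`; since `-log (1-x) ≥ x` it is enough that `r log N < (N - r)/2^r`, and
`r log N = r (log 4 + 2 log r + r log 2) < 4 r² - 1 < (N - r)/2^r` (`log 4 < 1.4`, `log r ≤ r - 1`, `log 2 < 0.7`, `r/2^r < 1`: `r (1.4 + 2 (r-1) + 0.7 r) = 2.7 r² - 0.6 r ≤ 4 r² - 1`).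
-/

set_option autoImplicit false

namespace Pool.Agent.Lib.MP_66cd2e_lc.CL

open Pool.Agent.Lib.MP_66cd2e_lc

open Classical in
/-- The tournament of a matrix of bits. -/
noncomputable def ersT {N : ℕ} (g : Fin N → Fin N → Bool) : Tournament (Fin N) where
  arc i j := i ≠ j ∧ xor (g i j) (g j i) = decide (i < j)
  irrefl v h := h.1 rfl
  exactlyOne u v huv := by
    have h1 : decide (v < u) = !decide (u < v) := by
      rcases lt_or_gt_of_ne huv with h | h
      · simp [h, h.not_gt]
      · simp [h, h.not_gt]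
    rw [h1]
    have h2 : xor (g v u) (g u v) = xor (g u v) (g v u) := Bool.xor_comm _ _
    rw [h2]
    have h3 : v ≠ u := huv.symm
    generalize xor (g u v) (g v u) = a
    generalize decide (u < v) = b
    simp only [ne_eq, huv, not_false_eq_true, true_and, h3]
    cases a <;> cases b <;> simp

private theorem ers_rows {N r : ℕ} (S : Finset (Fin N)) (hS : S.card = r) :
    ((Finset.univ : Finset (Fin N → Bool)).filter fun row => ¬ ∀ s ∈ S, row s = true).card =
      2 ^ N - 2 ^ (N - r) := by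
  classical
  have h1 : ((Finset.univ : Finset (Fin N → Bool)).filter fun row => ∀ s ∈ S, row s = true) =
      Fintype.piFinset fun s => if s ∈ S then {true} else Finset.univ := by
    ext row
    rw [Finset.mem_filter, Fintype.mem_piFinset]
    constructor
    · intro h s
      by_cases hs : s ∈ S
      · rw [if_pos hs, Finset.mem_singleton]
        exact h.2 s hs
      · rw [if_neg hs]
        exact Finset.mem_univ _
    · intro h
      refine ⟨Finset.mem_univ _, fun s hs => ?_⟩
      have := h s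
      rw [if_pos hs, Finset.mem_singleton] at this
      exact this
  have h2 : ((Finset.univ : Finset (Fin N → Bool)).filter fun row => ∀ s ∈ S, row s = true).card =
      2 ^ (N - r) := by
    rw [h1, Fintype.card_piFinset]
    have h3 : ∀ s : Fin N, (if s ∈ S then ({true} : Finset Bool) else Finset.univ).card =
        if s ∈ S then 1 else 2 := by
      intro s
      by_cases hs : s ∈ S <;> simp [hs]
    rw [Finset.prod_congr rfl fun s _ => h3 s, Finset.prod_ite, Finset.prod_const_one, one_mul,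
      Finset.prod_const]
    congr 1
    have h4 : (Finset.univ.filter fun s => s ∉ S) = Sᶜ := by
      ext s
      simp
    rw [h4, Finset.card_compl, Fintype.card_fin, hS]
  have h3 := Finset.card_filter_add_card_filter_not (s := (Finset.univ : Finset (Fin N → Bool)))
    (fun row => ∀ s ∈ S, row s = true)
  rw [h2, Finset.card_univ, Fintype.card_fun, Fintype.card_bool, Fintype.card_fin] at h3
  omega

open Classical in
private theorem ers_bad {N r : ℕ} (S : Finset (Fin N)) (hS : S.card = r) :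
    ((Finset.univ : Finset (Fin N → Fin N → Bool)).filter fun g =>
      ∀ y, y ∉ S → ¬ ∀ s ∈ S, (ersT g).arc y s).card ≤
      (2 ^ N) ^ r * (2 ^ N - 2 ^ (N - r)) ^ (N - r) := by
  have hcard : (Fintype.piFinset fun y : Fin N => if y ∈ S then (Finset.univ : Finset (Fin N → Bool)) else
      (Finset.univ : Finset (Fin N → Bool)).filter fun row => ¬ ∀ s ∈ S, row s = true).card =
      (2 ^ N) ^ r * (2 ^ N - 2 ^ (N - r)) ^ (N - r) := by
    rw [Fintype.card_piFinset]
    have h3 : ∀ y : Fin N, (if y ∈ S then (Finset.univ : Finset (Fin N → Bool)) else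
        (Finset.univ : Finset (Fin N → Bool)).filter fun row => ¬ ∀ s ∈ S, row s = true).card =
        if y ∈ S then 2 ^ N else 2 ^ N - 2 ^ (N - r) := by
      intro y
      by_cases hy : y ∈ S
      · rw [if_pos hy, if_pos hy, Finset.card_univ, Fintype.card_fun, Fintype.card_bool, Fintype.card_fin]
      · rw [if_neg hy, if_neg hy, ers_rows S hS]
    rw [Finset.prod_congr rfl fun s _ => h3 s, Finset.prod_ite, Finset.prod_const, Finset.prod_const]
    have h4 : (Finset.univ.filter fun s => s ∉ S) = Sᶜ := by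
      ext s
      simp
    have h5 : (Finset.univ.filter fun s => s ∈ S) = S := by
      ext s
      simp
    rw [h4, h5, Finset.card_compl, Fintype.card_fin, hS]
  rw [← hcard]
  let Φ : (Fin N → Fin N → Bool) → (Fin N → Fin N → Bool) := fun g y s =>
    if y ∉ S ∧ s ∈ S then xor (g y s) (xor (g s y) (!decide (y < s))) else g y s
  refine Finset.card_le_card_of_injOn Φ ?_ ?_
  · intro g hg
    have hg' := (Finset.mem_filter.1 (Finset.mem_coe.1 hg)).2
    refine Finset.mem_coe.2 (Fintype.mem_piFinset.2 fun y => ?_)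
    by_cases hy : y ∈ S
    · rw [if_pos hy]
      exact Finset.mem_univ _
    · rw [if_neg hy, Finset.mem_filter]
      refine ⟨Finset.mem_univ _, fun h => hg' y hy fun s hs => ?_⟩
      have h1 := h s hs
      change (if y ∉ S ∧ s ∈ S then xor (g y s) (xor (g s y) (!decide (y < s))) else g y s) = true at h1
      rw [if_pos ⟨hy, hs⟩] at h1
      refine ⟨fun h => hy (h ▸ hs), ?_⟩
      revert h1
      generalize g y s = a
      generalize g s y = b
      generalize decide (y < s) = c
      cases a <;> cases b <;> cases c <;> simp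
  · intro g _ g' _ hgg
    have h1 : ∀ y s, ¬ (y ∉ S ∧ s ∈ S) → g y s = g' y s := by
      intro y s hys
      have h := congrFun (congrFun hgg y) s
      change (if y ∉ S ∧ s ∈ S then xor (g y s) (xor (g s y) (!decide (y < s))) else g y s) =
        (if y ∉ S ∧ s ∈ S then xor (g' y s) (xor (g' s y) (!decide (y < s))) else g' y s) at h
      rw [if_neg hys, if_neg hys] at h
      exact h
    funext y s
    by_cases hys : y ∉ S ∧ s ∈ S
    · have h := congrFun (congrFun hgg y) s
      change (if y ∉ S ∧ s ∈ S then xor (g y s) (xor (g s y) (!decide (y < s))) else g y s) =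
        (if y ∉ S ∧ s ∈ S then xor (g' y s) (xor (g' s y) (!decide (y < s))) else g' y s) at h
      rw [if_pos hys, if_pos hys, h1 s y fun h => h.1 hys.2] at h
      exact Bool.xor_right_inj.1 (by rw [Bool.xor_comm, h, Bool.xor_comm]) |> fun h => h
    · exact h1 y s hys

private theorem ers_num {r N : ℕ} (hr : 1 ≤ r) (hN : N = 4 * r ^ 2 * 2 ^ r) :
    (N : ℝ) ^ r * (1 - 1 / 2 ^ r) ^ (N - r) < 1 := by
  have hr' : (1 : ℝ) ≤ r := by exact_mod_cast hr
  have h2r : r < 2 ^ r := Nat.lt_two_pow_self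
  have hrN : r ≤ N := by
    rw [hN]
    nlinarith [Nat.one_le_two_pow (n := r)]
  have hNpos : (0 : ℝ) < N := by
    have : 0 < N := lt_of_lt_of_le hr hrN
    exact_mod_cast this
  have hp : (0 : ℝ) < 2 ^ r := by positivity
  have h0 : (0 : ℝ) ≤ 1 - 1 / 2 ^ r := by
    rw [sub_nonneg, div_le_one hp]
    exact one_le_pow₀ (by norm_num)
  have h1 : (1 - 1 / 2 ^ r : ℝ) ^ (N - r) ≤ Real.exp (-(1 / 2 ^ r) * ((N - r : ℕ) : ℝ)) := by
    rw [mul_comm, Real.exp_nat_mul]
    exact pow_le_pow_left₀ h0 (Real.one_sub_le_exp_neg _) _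
  have h2 : (N : ℝ) ^ r = Real.exp (r * Real.log N) := by
    rw [Real.exp_nat_mul, Real.exp_log hNpos]
  have h3 : Real.log N ≤ 1.4 + 2 * (r - 1) + 0.7 * r := by
    rw [hN]
    push_cast
    rw [Real.log_mul (by positivity) (by positivity), Real.log_mul (by norm_num) (by positivity), Real.log_pow,
      Real.log_pow]
    have e1 : Real.log 4 = 2 * Real.log 2 := by
      rw [show (4 : ℝ) = 2 ^ 2 by norm_num, Real.log_pow]
      norm_num
    have e2 := Real.log_two_lt_d9
    have e3 : Real.log r ≤ r - 1 := Real.log_le_sub_one_of_pos (by linarith)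
    rw [e1]
    push_cast
    nlinarith
  have h4 : ((N - r : ℕ) : ℝ) = N - r := by
    rw [Nat.cast_sub hrN]
  have h5 : 1 / 2 ^ r * ((N : ℝ) - r) ≥ 4 * r ^ 2 - 1 := by
    rw [hN]
    push_cast
    have e1 : (1 : ℝ) / 2 ^ r * (4 * r ^ 2 * 2 ^ r - r) = 4 * r ^ 2 - r / 2 ^ r := by
      field_simp
    rw [e1]
    have e2 : (r : ℝ) / 2 ^ r ≤ 1 := by
      rw [div_le_one hp]
      exact_mod_cast h2r.le
    linarith
  calc (N : ℝ) ^ r * (1 - 1 / 2 ^ r) ^ (N - r)
      ≤ Real.exp (r * Real.log N) * Real.exp (-(1 / 2 ^ r) * ((N - r : ℕ) : ℝ)) := by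
        rw [← h2]
        exact mul_le_mul_of_nonneg_left h1 (by positivity)
    _ = Real.exp (r * Real.log N - 1 / 2 ^ r * ((N : ℝ) - r)) := by
        rw [← Real.exp_add, h4]
        congr 1
        ring
    _ < 1 := by
        rw [Real.exp_lt_one_iff]
        nlinarith

theorem exists_dom (r : ℕ) (hr : 1 ≤ r) : ∃ Q : Tournament (Fin (4 * r ^ 2 * 2 ^ r)), Dom Q r := by
  classical
  obtain ⟨N, hN⟩ : ∃ N, N = 4 * r ^ 2 * 2 ^ r := ⟨_, rfl⟩
  rw [← hN]
  have hrN : r ≤ N := by
    rw [hN]
    nlinarith [Nat.one_le_two_pow (n := r)]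
  obtain ⟨g, hg⟩ : ∃ g : Fin N → Fin N → Bool, ∀ S : Finset (Fin N), S.card = r →
      ∃ y, y ∉ S ∧ ∀ s ∈ S, (ersT g).arc y s := by
    by_contra hcon
    push Not at hcon
    have hsub : (Finset.univ : Finset (Fin N → Fin N → Bool)) ⊆
        (Finset.powersetCard r (Finset.univ : Finset (Fin N))).biUnion fun S =>
          (Finset.univ : Finset (Fin N → Fin N → Bool)).filter fun g =>
            ∀ y, y ∉ S → ¬ ∀ s ∈ S, (ersT g).arc y s := by
      intro g _
      obtain ⟨S, hS, h⟩ := hcon g
      refine Finset.mem_biUnion.2 ⟨S, Finset.mem_powersetCard.2 ⟨Finset.subset_univ _, hS⟩,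
        Finset.mem_filter.2 ⟨Finset.mem_univ _, fun y hy h' => ?_⟩⟩
      obtain ⟨s, hs, h''⟩ := h y hy
      exact h'' (h' s hs)
    have h1 := (Finset.card_le_card hsub).trans Finset.card_biUnion_le
    have h2 : ∑ S ∈ Finset.powersetCard r (Finset.univ : Finset (Fin N)),
        ((Finset.univ : Finset (Fin N → Fin N → Bool)).filter fun g =>
            ∀ y, y ∉ S → ¬ ∀ s ∈ S, (ersT g).arc y s).card ≤
        N ^ r * ((2 ^ N) ^ r * (2 ^ N - 2 ^ (N - r)) ^ (N - r)) := by
      refine (Finset.sum_le_sum fun S hS => ers_bad S (Finset.mem_powersetCard.1 hS).2).trans ?_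
      rw [Finset.sum_const, smul_eq_mul, Finset.card_powersetCard, Finset.card_univ, Fintype.card_fin]
      exact Nat.mul_le_mul_right _ (Nat.choose_le_pow _ _)
    have h3 := h1.trans h2
    rw [Finset.card_univ, Fintype.card_fun, Fintype.card_fun, Fintype.card_bool, Fintype.card_fin] at h3
    obtain ⟨D, hD⟩ : ∃ D : ℕ, D = 2 ^ N - 2 ^ (N - r) := ⟨_, rfl⟩
    rw [← hD] at h3
    have h4 : (((2 ^ N) ^ N : ℕ) : ℝ) ≤ ((N ^ r * ((2 ^ N) ^ r * D ^ (N - r)) : ℕ) : ℝ) := by
      exact_mod_cast h3
    have h5 : ((2 ^ N - 2 ^ (N - r) : ℕ) : ℝ) = 2 ^ N * (1 - 1 / 2 ^ r) := by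
      rw [Nat.cast_sub (Nat.pow_le_pow_right (by norm_num) (Nat.sub_le _ _))]
      push_cast
      have e1 : (2 : ℝ) ^ N = 2 ^ (N - r) * 2 ^ r := by
        rw [← pow_add, Nat.sub_add_cancel hrN]
      rw [e1]
      field_simp
    rw [← hD] at h5
    push_cast at h4
    rw [h5] at h4
    have h6 := ers_num hr hN
    have h7 : ((2 : ℝ) ^ N) ^ N = (2 ^ N) ^ r * (2 ^ N) ^ (N - r) := by
      rw [← pow_add, Nat.add_sub_cancel' hrN]
    rw [h7, mul_pow] at h4
    have h8 : (0 : ℝ) < (2 ^ N) ^ r * (2 ^ N) ^ (N - r) := by positivity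
    have h9 : (N : ℝ) ^ r * ((2 ^ N) ^ r * ((2 ^ N) ^ (N - r) * (1 - 1 / 2 ^ r) ^ (N - r))) =
        ((2 ^ N) ^ r * (2 ^ N) ^ (N - r)) * ((N : ℝ) ^ r * (1 - 1 / 2 ^ r) ^ (N - r)) := by ring
    rw [h9] at h4
    nlinarith
  refine ⟨ersT g, fun S hS => ?_⟩
  obtain ⟨S', hSS', hS'⟩ := Finset.exists_superset_card_eq hS (by rw [Fintype.card_fin]; exact hrN)
  obtain ⟨y, hy, h⟩ := hg S' hS'
  exact ⟨y, fun h' => hy (hSS' h'), fun s hs => h s (hSS' hs)⟩

end Pool.Agent.Lib.MP_66cd2e_lc.CL
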