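import Pool.Agent.Lib.MP_66cd2e_lc.CL.Defs

/-!
# Counting logic: back-and-forth systems
-/

set_option autoImplicit false

namespace Pool.Agent.Lib.MP_66cd2e_lc.CL

open Pool.Agent.Lib.MP_66cd2e_lc

/-- Back-and-forth systems for the bijective pebble game preserve the formulas with `k` variables. -/
theorem sat_iff_of_system {V W : Type} (T : Tournament V) (U : Tournament W) {k : ℕ}
    (I : (Fin k → V) → (Fin k → W) → Prop)
    (heq : ∀ a b, I a b → ∀ i j, (a i = a j ↔ b i = b j))
    (harc : ∀ a b, I a b → ∀ i j, (T.arc (a i) (a j) ↔ U.arc (b i) (b j)))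
    (hext : ∀ a b, I a b → ∀ i, ∃ f : V ≃ W, ∀ x, I (Function.update a i x) (Function.update b i (f x)))
    (φ : Fml k) : ∀ (a : Fin k → V) (b : Fin k → W), I a b → (Sat T φ a ↔ Sat U φ b) := by
  induction φ with
  | eq i j => exact fun a b h => heq a b h i j
  | arc i j => exact fun a b h => harc a b h i j
  | neg φ ih => exact fun a b h => not_congr (ih a b h)
  | conj ι φ ih => exact fun a b h => forall_congr' fun i => ih i a b h
  | atLeast c i φ ih =>
    intro a b h
    obtain ⟨f, hf⟩ := hext a b h i
    have e : Nat.card {x : V // Sat T φ (Function.update a i x)} =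
        Nat.card {y : W // Sat U φ (Function.update b i y)} := by
      refine Nat.card_congr (f.subtypeEquiv fun x => ih _ _ (hf x))
    change c ≤ Nat.card {x : V // Sat T φ (Function.update a i x)} ↔
      c ≤ Nat.card {y : W // Sat U φ (Function.update b i y)}
    rw [e]

end Pool.Agent.Lib.MP_66cd2e_lc.CL
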