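import Pool.Agent.Lib.MP_66cd2e_lc.CL.Haven
import Pool.Agent.Lib.MP_66cd2e_lc.CL.Logic

/-!
# The strategy of Duplicator
-/

set_option autoImplicit false

namespace Pool.Agent.Lib.MP_66cd2e_lc.CL

open Pool.Agent.Lib.MP_66cd2e_lc

section

variable {m N e : ℕ}

/-- The class of a vertex. -/
def loc : Pre m N e → Option (Fin m)
  | .g u _ => some u
  | .w u _ _ => some u
  | _ => none

/-- The shift by `τ`. -/
def shift (τ : Fin m → Fin m → ZMod 3) : Pre m N e → Pre m N e
  | .g u a => .g u (a + τ u)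
  | .w u j q => .w u j (q + (τ u j, τ j u))
  | x => x

theorem loc_shift (τ : Fin m → Fin m → ZMod 3) (x : Pre m N e) : loc (shift τ x) = loc x := by
  cases x <;> rfl

theorem shift_neg_shift (τ : Fin m → Fin m → ZMod 3) (x : Pre m N e) : shift (-τ) (shift τ x) = x := by
  cases x with
  | g u a =>
    change Pre.g u (a + τ u + (-τ) u) = Pre.g u a
    rw [Pi.neg_apply, add_neg_cancel_right]
  | w u j q =>
    change Pre.w u j (q + (τ u j, τ j u) + ((-τ) u j, (-τ) j u)) = Pre.w u j q
    have h : ((-τ) u j, (-τ) j u) = -(τ u j, τ j u) := rfl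
    rw [h, add_neg_cancel_right]
  | z => rfl
  | r _ _ => rfl
  | p _ => rfl

theorem shift_shift_neg (τ : Fin m → Fin m → ZMod 3) (x : Pre m N e) : shift τ (shift (-τ) x) = x := by
  have h := shift_neg_shift (-τ) x
  rw [neg_neg] at h
  exact h

theorem shift_inj (τ : Fin m → Fin m → ZMod 3) {x y : Pre m N e} : shift τ x = shift τ y ↔ x = y := by
  refine ⟨fun h => ?_, fun h => by rw [h]⟩
  rw [← shift_neg_shift τ x, h, shift_neg_shift]

theorem shift_congr {τ τ' : Fin m → Fin m → ZMod 3} (x : Pre m N e)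
    (h : ∀ u, loc x = some u → ∀ y, τ u y = τ' u y ∧ τ y u = τ' y u) : shift τ x = shift τ' x := by
  cases x with
  | g u a =>
    change Pre.g u (a + τ u) = Pre.g u (a + τ' u)
    have : τ u = τ' u := funext fun y => (h u rfl y).1
    rw [this]
  | w u j q =>
    change Pre.w u j (q + (τ u j, τ j u)) = Pre.w u j (q + (τ' u j, τ' j u))
    rw [(h u rfl j).1, (h u rfl j).2]
  | z => rfl
  | r _ _ => rfl
  | p _ => rfl

theorem gw_shift (τ : Fin m → Fin m → ZMod 3) (u : Fin m) (a : Fin m → ZMod 3) (v j : Fin m)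
    (q : ZMod 3 × ZMod 3) : gw u (a + τ u) v j (q + (τ v j, τ j v)) ↔ gw u a v j q := by
  unfold gw
  constructor
  · rintro (⟨rfl, h⟩ | ⟨h1, rfl, h⟩)
    · refine Or.inl ⟨rfl, fun h' => h ?_⟩
      change a j + τ u j = q.1 + τ u j
      rw [h']
    · refine Or.inr ⟨h1, rfl, fun h' => h ?_⟩
      change a v + τ u v = q.2 + τ u v
      rw [h']
  · rintro (⟨rfl, h⟩ | ⟨h1, rfl, h⟩)
    · refine Or.inl ⟨rfl, fun h' => h ?_⟩
      change a j + τ u j = q.1 + τ u j at h'
      exact add_right_cancel h'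
    · refine Or.inr ⟨h1, rfl, fun h' => h ?_⟩
      change a v + τ u v = q.2 + τ u v at h'
      exact add_right_cancel h'

theorem arc_shift (Q : Tournament (Fin N)) (τ : Fin m → Fin m → ZMod 3) (x y : Pre m N e) :
    arcP Q (shift τ x) (shift τ y) ↔ arcP Q x y := by
  cases x with
  | g u a =>
    cases y with
    | g v b =>
      change (u < v ∨ (u = v ∧ tw (b + τ v - (a + τ u)))) ↔ (u < v ∨ (u = v ∧ tw (b - a)))
      refine or_congr_right (and_congr_right fun h => ?_)
      rw [h, add_sub_add_right_eq_sub]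
    | w v j q => exact gw_shift τ u a v j q
    | z => exact Iff.rfl
    | r _ _ => exact Iff.rfl
    | p _ => exact Iff.rfl
  | w u j q =>
    cases y with
    | g v b => exact not_congr (gw_shift τ v b u j q)
    | w u' j' q' =>
      change (u < u' ∨ (u = u' ∧ (j < j' ∨ (j = j' ∧
        tw (q' + (τ u' j', τ j' u') - (q + (τ u j, τ j u))))))) ↔
        (u < u' ∨ (u = u' ∧ (j < j' ∨ (j = j' ∧ tw (q' - q)))))
      refine or_congr_right (and_congr_right fun h => or_congr_right (and_congr_right fun h' => ?_))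
      rw [h, h', add_sub_add_right_eq_sub]
    | z => exact Iff.rfl
    | r _ _ => exact Iff.rfl
    | p _ => exact Iff.rfl
  | z => cases y <;> exact Iff.rfl
  | r _ _ => cases y <;> exact Iff.rfl
  | p _ => cases y <;> exact Iff.rfl

/-- `τ` is a unit flow from `us` to `u₀`, and `u₀` is in the large component after the removal of `X`. -/
structure Inv (G : SimpleGraph (Fin m)) (h : ℕ) (us : Fin m) (X : Finset (Fin m))
    (τ : Fin m → Fin m → ZMod 3) (u₀ : Fin m) : Prop where
  anti : ∀ x y, τ x y = - τ y x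
  supp : ∀ x y, ¬ G.Adj x y → τ x y = 0
  net : ∀ x, ∑ y, τ x y = (if x = us then 1 else 0) - (if x = u₀ then 1 else 0)
  mem : u₀ ∈ bt G h X

theorem Inv.mono {G : SimpleGraph (Fin m)} {h : ℕ} {us : Fin m} {X Y : Finset (Fin m)}
    {τ : Fin m → Fin m → ZMod 3} {u₀ : Fin m} (hI : Inv G h us Y τ u₀) (hXY : X ⊆ Y) :
    Inv G h us X τ u₀ :=
  ⟨hI.anti, hI.supp, hI.net, bt_mono G h hXY hI.mem⟩

theorem step {G : SimpleGraph (Fin m)} {h : ℕ} (hG : Hole G h) {us : Fin m} {X : Finset (Fin m)}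
    (hX : X.card + 1 + 3 * h + 1 ≤ m) {τ : Fin m → Fin m → ZMod 3} {u₀ : Fin m}
    (hI : Inv G h us X τ u₀) (l : Option (Fin m)) :
    ∃ (τ' : Fin m → Fin m → ZMod 3) (u₁ : Fin m), Inv G h us (X ∪ l.toFinset) τ' u₁ ∧
      ∀ x y, x ∈ X → τ x y = τ' x y ∧ τ y x = τ' y x := by
  classical
  have hl : l.toFinset.card ≤ 1 := by
    cases l <;> simp
  have hc := Finset.card_union_le X l.toFinset
  obtain ⟨u₁, hu₁⟩ := bt_nonempty hG (X := X ∪ l.toFinset) (by omega)
  obtain ⟨σ, h1, h2, h3⟩ := bt_flow hG hI.mem (bt_mono G h Finset.subset_union_left hu₁)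
  refine ⟨τ + σ, u₁, ⟨?_, ?_, ?_, hu₁⟩, ?_⟩
  · intro x y
    change τ x y + σ x y = -(τ y x + σ y x)
    rw [hI.anti x y, h1 x y]
    ring
  · intro x y hxy
    change τ x y + σ x y = 0
    rw [hI.supp x y hxy, h2 x y fun h => hxy h.1, add_zero]
  · intro x
    change ∑ y, (τ x y + σ x y) = _
    rw [Finset.sum_add_distrib, hI.net, h3]
    ring
  · intro x y hx
    change τ x y = τ x y + σ x y ∧ τ y x = τ y x + σ y x
    rw [h2 x y fun h => h.2.1 hx, h2 y x fun h => h.2.2 hx, add_zero, add_zero]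
    exact ⟨rfl, rfl⟩

theorem valid_shift {G : SimpleGraph (Fin m)} {h : ℕ} {us : Fin m} {X : Finset (Fin m)}
    {τ : Fin m → Fin m → ZMod 3} {u₁ : Fin m} {x : Pre m N e}
    (hI : Inv G h us (X ∪ (loc x).toFinset) τ u₁) (hx : Valid G 0 x) :
    Valid G (Pi.single us 1) (shift τ x) := by
  classical
  cases x with
  | g u a =>
    have hu : u ≠ u₁ := by
      rintro rfl
      exact hI.mem.1 (Finset.mem_union_right _ (by simp [loc]))
    refine ⟨fun j hj => ?_, ?_⟩
    · change a j + τ u j = 0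
      rw [hx.1 j hj, hI.supp u j hj, add_zero]
    · change ∑ j, (a j + τ u j) = _
      rw [Finset.sum_add_distrib, hx.2, hI.net, if_neg hu, Pi.single_apply]
      simp
  | w u j q =>
    refine ⟨hx.1, hx.2.1, ?_⟩
    change q.1 + τ u j + (q.2 + τ j u) ≠ 0
    have h1 : q.1 + τ u j + (q.2 + τ j u) = q.1 + q.2 := by
      rw [hI.anti u j]
      ring
    rw [h1]
    exact hx.2.2
  | z => trivial
  | r _ _ => trivial
  | p _ => trivial

theorem valid_unshift {G : SimpleGraph (Fin m)} {h : ℕ} {us : Fin m} {X : Finset (Fin m)}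
    {τ : Fin m → Fin m → ZMod 3} {u₁ : Fin m} {x : Pre m N e}
    (hI : Inv G h us (X ∪ (loc x).toFinset) τ u₁) (hx : Valid G (Pi.single us 1) x) :
    Valid G 0 (shift (-τ) x) := by
  classical
  cases x with
  | g u a =>
    have hu : u ≠ u₁ := by
      rintro rfl
      exact hI.mem.1 (Finset.mem_union_right _ (by simp [loc]))
    refine ⟨fun j hj => ?_, ?_⟩
    · change a j + -τ u j = 0
      rw [hx.1 j hj, hI.supp u j hj, neg_zero, add_zero]
    · change ∑ j, (a j + -τ u j) = _
      rw [Finset.sum_add_distrib, Finset.sum_neg_distrib, hx.2, hI.net, if_neg hu, Pi.single_apply]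
      simp
  | w u j q =>
    refine ⟨hx.1, hx.2.1, ?_⟩
    change q.1 + -τ u j + (q.2 + -τ j u) ≠ 0
    have h1 : q.1 + -τ u j + (q.2 + -τ j u) = q.1 + q.2 := by
      rw [hI.anti u j]
      ring
    rw [h1]
    exact hx.2.2
  | z => trivial
  | r _ _ => trivial
  | p _ => trivial

theorem exists_equiv {G : SimpleGraph (Fin m)} {h : ℕ} {us : Fin m} {X : Finset (Fin m)}
    (T : Option (Fin m) → Fin m → Fin m → ZMod 3) (w : Option (Fin m) → Fin m)
    (hT : ∀ l : Option (Fin m), Inv G h us (X ∪ l.toFinset) (T l) (w l)) :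
    ∃ f : {x : Pre m N e // Valid G 0 x} ≃ {x : Pre m N e // Valid G (Pi.single us 1) x},
      ∀ x, (f x).1 = shift (T (loc x.1)) x.1 := by
  refine ⟨⟨fun x => ⟨shift (T (loc x.1)) x.1, valid_shift (hT _) x.2⟩,
    fun y => ⟨shift (-T (loc y.1)) y.1, valid_unshift (hT _) y.2⟩, ?_, ?_⟩, fun x => rfl⟩
  · intro x
    apply Subtype.ext
    change shift (-T (loc (shift (T (loc x.1)) x.1))) (shift (T (loc x.1)) x.1) = x.1
    rw [loc_shift, shift_neg_shift]
  · intro y
    apply Subtype.ext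
    change shift (T (loc (shift (-T (loc y.1)) y.1))) (shift (-T (loc y.1)) y.1) = y.1
    rw [loc_shift, shift_shift_neg]

/-- The two tournaments satisfy the same formulas with `k` variables. -/
theorem game {G : SimpleGraph (Fin m)} {h : ℕ} (hG : Hole G h) (Q : Tournament (Fin N)) {k : ℕ}
    (hk : k + 3 * h + 1 ≤ m) {us : Fin m} (hus : us ∈ bt G h ∅) (φ : Fml k) :
    Sat (TT G Q e 0) φ (fun _ => zz G 0) ↔ Sat (TT G Q e (Pi.single us 1)) φ (fun _ => zz G _) := by
  classical
  refine sat_iff_of_system (TT G Q e 0) (TT G Q e (Pi.single us 1))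
    (fun a b => ∃ (τ : Fin m → Fin m → ZMod 3) (u₀ : Fin m),
      Inv G h us (Finset.univ.biUnion fun i => (loc (a i).1).toFinset) τ u₀ ∧
        ∀ i, (b i).1 = shift τ (a i).1) ?_ ?_ ?_ φ _ _ ?_
  · rintro a b ⟨τ, u₀, -, hb⟩ i j
    rw [Subtype.ext_iff, Subtype.ext_iff, hb, hb, shift_inj]
  · rintro a b ⟨τ, u₀, -, hb⟩ i j
    change arcP Q (a i).1 (a j).1 ↔ arcP Q (b i).1 (b j).1
    rw [hb, hb, arc_shift]
  · rintro a b ⟨τ, u₀, hI, hb⟩ i
    obtain ⟨X, hX⟩ : ∃ X, X = (Finset.univ.erase i).biUnion fun j => (loc (a j).1).toFinset := ⟨_, rfl⟩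
    have hXc : X.card ≤ k - 1 := by
      rw [hX]
      refine (Finset.card_biUnion_le_card_mul _ _ 1 ?_).trans ?_
      · intro j _
        cases loc (a j).1 <;> simp
      · rw [Finset.card_erase_of_mem (Finset.mem_univ i), Finset.card_univ, Fintype.card_fin, mul_one]
    have hk1 : 1 ≤ k := by
      have := i.2
      omega
    have hIX : Inv G h us X τ u₀ := by
      refine hI.mono ?_
      rw [hX]
      exact Finset.biUnion_subset_biUnion_of_subset_left _ (Finset.erase_subset _ _)
    have hs := fun l => step hG (X := X) (by omega) hIX l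
    choose T w hT hTc using hs
    obtain ⟨f, hf⟩ := exists_equiv (N := N) (e := e) T w hT
    refine ⟨f, fun x => ⟨T (loc x.1), w (loc x.1), (hT (loc x.1)).mono ?_, fun j => ?_⟩⟩
    · intro v hv
      rw [Finset.mem_biUnion] at hv
      obtain ⟨j, -, hj⟩ := hv
      by_cases hji : j = i
      · subst hji
        rw [Function.update_self] at hj
        exact Finset.mem_union_right _ hj
      · rw [Function.update_of_ne hji] at hj
        refine Finset.mem_union_left _ ?_
        rw [hX]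
        exact Finset.mem_biUnion.2 ⟨j, Finset.mem_erase.2 ⟨hji, Finset.mem_univ j⟩, hj⟩
    · by_cases hji : j = i
      · subst hji
        rw [Function.update_self, Function.update_self]
        exact hf x
      · rw [Function.update_of_ne hji, Function.update_of_ne hji, hb]
        refine shift_congr _ fun u hu y => hTc _ u y ?_
        rw [hX]
        refine Finset.mem_biUnion.2 ⟨j, Finset.mem_erase.2 ⟨hji, Finset.mem_univ j⟩, ?_⟩
        rw [hu]
        simp
  · refine ⟨0, us, ⟨by simp, by simp, by simp, bt_mono G h ?_ hus⟩, fun i => rfl⟩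
    intro v hv
    simp [zz, loc] at hv

/-- The two tournaments have the same number of vertices. -/
theorem card_eq {G : SimpleGraph (Fin m)} {h : ℕ} (hG : Hole G h) (hm : 3 * h + 2 ≤ m) {us : Fin m}
    (hus : us ∈ bt G h ∅) :
    Nonempty ({x : Pre m N e // Valid G 0 x} ≃ {x : Pre m N e // Valid G (Pi.single us 1) x}) := by
  have hI : Inv G h us ∅ 0 us := ⟨by simp, by simp, by simp, hus⟩
  have hs := fun l => step hG (X := ∅) (by simpa using by omega) hI l
  choose T w hT hTc using hs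
  obtain ⟨f, -⟩ := exists_equiv (N := N) (e := e) T w hT
  exact ⟨f⟩

end

end Pool.Agent.Lib.MP_66cd2e_lc.CL
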