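import Pool.Agent.Lib.MP_66cd2e_lc.CL.Cst

/-!
# Graphs without large holes: the large component and flows
-/

set_option autoImplicit false

namespace Pool.Agent.Lib.MP_66cd2e_lc.CL

open Pool.Agent.Lib.MP_66cd2e_lc

/-- The large component after the vertices in `X` are removed. -/
def bt {m : ℕ} (G : SimpleGraph (Fin m)) (h : ℕ) (X : Finset (Fin m)) : Set (Fin m) :=
  {u | u ∉ X ∧ ∀ U : Finset (Fin m), (∀ x ∈ U, x ∉ X) →
    (∀ x ∈ U, ∀ y, y ∉ X → y ∉ U → ¬ G.Adj x y) → U.card ≤ h → u ∉ U}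

theorem bt_mono {m : ℕ} (G : SimpleGraph (Fin m)) (h : ℕ) {X Y : Finset (Fin m)} (hXY : X ⊆ Y) :
    bt G h Y ⊆ bt G h X := by
  classical
  intro u hu
  refine ⟨fun hx => hu.1 (hXY hx), fun U hU1 hU2 hU3 huU => ?_⟩
  refine hu.2 (U \ Y) (fun x hx => (Finset.mem_sdiff.1 hx).2) ?_ ?_ (Finset.mem_sdiff.2 ⟨huU, hu.1⟩)
  · intro x hx y hy hyU
    refine hU2 x (Finset.mem_sdiff.1 hx).1 y (fun h => hy (hXY h)) fun h => ?_
    exact hyU (Finset.mem_sdiff.2 ⟨h, hy⟩)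
  · exact (Finset.card_le_card Finset.sdiff_subset).trans hU3

theorem bt_nonempty {m : ℕ} {G : SimpleGraph (Fin m)} {h : ℕ} (hG : Hole G h) {X : Finset (Fin m)}
    (hX : X.card + 3 * h + 1 ≤ m) : (bt G h X).Nonempty := by
  classical
  by_contra hne
  have h1 : ∀ u, u ∉ X → ∃ U : Finset (Fin m), ((∀ x ∈ U, x ∉ X) ∧
      (∀ x ∈ U, ∀ y, y ∉ X → y ∉ U → ¬ G.Adj x y) ∧ U.card ≤ h) ∧ u ∈ U := by
    intro u hu
    by_contra hc
    apply hne
    refine ⟨u, hu, fun U hU1 hU2 hU3 huU => hc ⟨U, ⟨hU1, hU2, hU3⟩, huU⟩⟩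
  obtain ⟨U₀, hU₀, hmax⟩ := Finset.exists_max_image
    ((Finset.univ : Finset (Finset (Fin m))).filter fun U => (∀ x ∈ U, x ∉ X) ∧
      (∀ x ∈ U, ∀ y, y ∉ X → y ∉ U → ¬ G.Adj x y) ∧ U.card ≤ h) Finset.card
    ⟨∅, by simp⟩
  obtain ⟨-, hU₀1, hU₀2, hU₀3⟩ := Finset.mem_filter.1 hU₀
  have hc : Xᶜ.card = m - X.card := by rw [Finset.card_compl, Fintype.card_fin]
  obtain ⟨u, huX, huU⟩ : ∃ u, u ∈ Xᶜ ∧ u ∉ U₀ := by
    by_contra hc2
    push Not at hc2
    have := Finset.card_le_card (fun u hu => hc2 u hu : Xᶜ ⊆ U₀)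
    omega
  obtain ⟨U₁, ⟨hU₁1, hU₁2, hU₁3⟩, huU₁⟩ := h1 u (Finset.mem_compl.1 huX)
  have hU2a : ∀ x ∈ U₀ ∪ U₁, x ∉ X := by
    intro x hx
    rcases Finset.mem_union.1 hx with h | h
    · exact hU₀1 x h
    · exact hU₁1 x h
  have hU2b : ∀ x ∈ U₀ ∪ U₁, ∀ y, y ∉ X → y ∉ U₀ ∪ U₁ → ¬ G.Adj x y := by
    intro x hx y hy hyU
    rw [Finset.mem_union, not_or] at hyU
    rcases Finset.mem_union.1 hx with h | h
    · exact hU₀2 x h y hy hyU.1
    · exact hU₁2 x h y hy hyU.2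
  have h2 := hG (U₀ ∪ U₁) (Xᶜ \ (U₀ ∪ U₁)) Finset.disjoint_sdiff
    (fun x hx y hy => hU2b x hx y (Finset.mem_compl.1 (Finset.mem_sdiff.1 hy).1) (Finset.mem_sdiff.1 hy).2)
  have h3 := Finset.card_union_le U₀ U₁
  have h4 := Finset.le_card_sdiff (U₀ ∪ U₁) Xᶜ
  have h5 : (U₀ ∪ U₁).card ≤ h := by omega
  have h6 := hmax (U₀ ∪ U₁) (Finset.mem_filter.2 ⟨Finset.mem_univ _, hU2a, hU2b, h5⟩)
  have h7 : U₀ ⊂ U₀ ∪ U₁ := by
    refine Finset.ssubset_iff_subset_ne.2 ⟨Finset.subset_union_left, fun h => huU ?_⟩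
    rw [h]
    exact Finset.mem_union_right _ huU₁
  have h8 := Finset.card_lt_card h7
  omega

theorem bt_reach {m : ℕ} {G : SimpleGraph (Fin m)} {h : ℕ} (hG : Hole G h) {X : Finset (Fin m)}
    {u v : Fin m} (hu : u ∈ bt G h X) (hv : v ∈ bt G h X) :
    Relation.ReflTransGen (fun a b => G.Adj a b ∧ b ∉ X) u v := by
  classical
  by_contra hc
  have hCX : ∀ x, Relation.ReflTransGen (fun a b => G.Adj a b ∧ b ∉ X) u x → x ∉ X := by
    intro x hx
    rcases Relation.ReflTransGen.cases_tail hx with h | ⟨y, -, h⟩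
    · rw [h]
      exact hu.1
    · exact h.2
  obtain ⟨C, hC⟩ : ∃ C : Finset (Fin m), ∀ x, x ∈ C ↔
      Relation.ReflTransGen (fun a b => G.Adj a b ∧ b ∉ X) u x :=
    ⟨Finset.univ.filter fun x => Relation.ReflTransGen (fun a b => G.Adj a b ∧ b ∉ X) u x, by simp⟩
  have hcl : ∀ x ∈ C, ∀ y, y ∉ X → y ∉ C → ¬ G.Adj x y := by
    intro x hx y hy hyC ha
    exact hyC ((hC y).2 (((hC x).1 hx).tail ⟨ha, hy⟩))
  have h1 := hG C (Xᶜ \ C) Finset.disjoint_sdiff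
    (fun x hx y hy => hcl x hx y (Finset.mem_compl.1 (Finset.mem_sdiff.1 hy).1) (Finset.mem_sdiff.1 hy).2)
  rcases h1 with h1 | h1
  · exact hu.2 C (fun x hx => hCX x ((hC x).1 hx)) hcl h1 ((hC u).2 Relation.ReflTransGen.refl)
  · refine hv.2 (Xᶜ \ C) (fun x hx => Finset.mem_compl.1 (Finset.mem_sdiff.1 hx).1) ?_ h1
      (Finset.mem_sdiff.2 ⟨Finset.mem_compl.2 hv.1, fun h => hc ((hC v).1 h)⟩)
    intro x hx y hy hyC ha
    have hyC' : y ∈ C := by
      by_contra h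
      exact hyC (Finset.mem_sdiff.2 ⟨Finset.mem_compl.2 hy, h⟩)
    obtain ⟨hx1, hx2⟩ := Finset.mem_sdiff.1 hx
    exact hcl y hyC' x (Finset.mem_compl.1 hx1) hx2 ha.symm

/-- A unit flow from `u` to `v` which avoids `X`. -/
theorem bt_flow {m : ℕ} {G : SimpleGraph (Fin m)} {h : ℕ} (hG : Hole G h) {X : Finset (Fin m)}
    {u v : Fin m} (hu : u ∈ bt G h X) (hv : v ∈ bt G h X) :
    ∃ σ : Fin m → Fin m → ZMod 3, (∀ x y, σ x y = - σ y x) ∧
      (∀ x y, ¬ (G.Adj x y ∧ x ∉ X ∧ y ∉ X) → σ x y = 0) ∧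
      ∀ x, ∑ y, σ x y = (if x = u then 1 else 0) - (if x = v then 1 else 0) := by
  classical
  have hr := bt_reach hG hu hv
  clear hv
  induction hr with
  | refl => exact ⟨0, by simp, by simp, by simp⟩
  | @tail b c hb hc ih =>
    obtain ⟨σ, h1, h2, h3⟩ := ih
    have hbX : b ∉ X := by
      rcases Relation.ReflTransGen.cases_tail hb with h | ⟨y, -, h⟩
      · rw [h]
        exact hu.1
      · exact h.2
    refine ⟨fun x y => σ x y + ((if x = b ∧ y = c then 1 else 0) - (if x = c ∧ y = b then 1 else 0)),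
      ?_, ?_, ?_⟩
    · intro x y
      change σ x y + ((if x = b ∧ y = c then 1 else 0) - (if x = c ∧ y = b then 1 else 0)) =
        -(σ y x + ((if y = b ∧ x = c then 1 else 0) - (if y = c ∧ x = b then 1 else 0)))
      have e1 : (if y = b ∧ x = c then (1 : ZMod 3) else 0) = if x = c ∧ y = b then 1 else 0 :=
        if_congr and_comm rfl rfl
      have e2 : (if y = c ∧ x = b then (1 : ZMod 3) else 0) = if x = b ∧ y = c then 1 else 0 :=
        if_congr and_comm rfl rfl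
      rw [h1 x y, e1, e2]
      ring
    · intro x y hxy
      change σ x y + ((if x = b ∧ y = c then 1 else 0) - (if x = c ∧ y = b then 1 else 0)) = 0
      rw [h2 x y hxy]
      have e1 : ¬ (x = b ∧ y = c) := by
        rintro ⟨rfl, rfl⟩
        exact hxy ⟨hc.1, hbX, hc.2⟩
      have e2 : ¬ (x = c ∧ y = b) := by
        rintro ⟨rfl, rfl⟩
        exact hxy ⟨hc.1.symm, hc.2, hbX⟩
      rw [if_neg e1, if_neg e2]
      ring
    · intro x
      change ∑ y, (σ x y + ((if x = b ∧ y = c then 1 else 0) - (if x = c ∧ y = b then 1 else 0))) = _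
      rw [Finset.sum_add_distrib, Finset.sum_sub_distrib, h3 x]
      have e1 : ∑ y, (if x = b ∧ y = c then (1 : ZMod 3) else 0) = if x = b then 1 else 0 := by
        by_cases hx : x = b <;> simp [hx]
      have e2 : ∑ y, (if x = c ∧ y = b then (1 : ZMod 3) else 0) = if x = c then 1 else 0 := by
        by_cases hx : x = c <;> simp [hx]
      rw [e1, e2]
      ring

end Pool.Agent.Lib.MP_66cd2e_lc.CL
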