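import Pool.Agent.Lib.MP_66cd2e_lc.CL.Defs

/-!
# The upper bound

* `dom_le_log`: a tournament with `n ≥ 1` vertices has a dominating set of at most `Nat.log 2 n + 1` elements.
* `suffices_upper`: `Nat.log 2 n + 1` variables suffice for the tournaments with `n` vertices.
-/

set_option autoImplicit false

namespace Pool.Agent.Lib.MP_66cd2e_lc.CL

open Pool.Agent.Lib.MP_66cd2e_lc

section

variable {V : Type} (T : Tournament V)

open Classical in
private theorem upp_sum (W : Finset V) :
    ∑ v ∈ W, (W.filter (fun w => T.arc w v)).card = ∑ v ∈ W, (W.filter (fun w => T.arc v w)).card := by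
  simp only [Finset.card_filter]
  rw [Finset.sum_comm]

open Classical in
private theorem upp_vertex (W : Finset V) (hW : W.Nonempty) :
    ∃ v ∈ W, (W.filter (fun w => T.arc w v)).card ≤ (W.filter (fun w => T.arc v w)).card :=
  Finset.exists_le_of_sum_le hW (le_of_eq (upp_sum T W))

open Classical in
private theorem upp_split (W : Finset V) (v : V) (hv : v ∈ W) :
    (W.filter (fun w => T.arc w v)).card + (W.filter (fun w => T.arc v w)).card + 1 ≤ W.card := by
  have hd : Disjoint (W.filter (fun w => T.arc w v)) (W.filter (fun w => T.arc v w)) := by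
    rw [Finset.disjoint_left]
    intro x hx hy
    rw [Finset.mem_filter] at hx hy
    by_cases h : x = v
    · rw [h] at hx
      exact T.irrefl v hx.2
    · exact ((T.exactlyOne x v h).1 hx.2) hy.2
  rw [← Finset.card_union_of_disjoint hd]
  have hsub : (W.filter (fun w => T.arc w v)) ∪ (W.filter (fun w => T.arc v w)) ⊆ W.erase v := by
    intro x hx
    rw [Finset.mem_union, Finset.mem_filter, Finset.mem_filter] at hx
    rw [Finset.mem_erase]
    rcases hx with hx | hx
    · refine ⟨?_, hx.1⟩
      rintro rfl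
      exact T.irrefl _ hx.2
    · refine ⟨?_, hx.1⟩
      rintro rfl
      exact T.irrefl _ hx.2
  have h1 := Finset.card_le_card hsub
  have h2 := Finset.card_erase_add_one hv
  omega

open Classical in
private theorem upp_ind : ∀ (k : ℕ) (W : Finset V), W.card < 2 ^ k →
    ∃ S : Finset V, S.card ≤ k ∧ ∀ w ∈ W, w ∉ S → ∃ v ∈ S, T.arc v w := by
  intro k
  induction k with
  | zero =>
    intro W hW
    have h0 : W = ∅ := by
      rw [pow_zero, Nat.lt_one_iff] at hW
      exact Finset.card_eq_zero.1 hW
    refine ⟨∅, by simp, ?_⟩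
    intro w hw
    rw [h0] at hw
    exact absurd hw (Finset.notMem_empty w)
  | succ k ih =>
    intro W hW
    rcases W.eq_empty_or_nonempty with h0 | hne
    · refine ⟨∅, by simp, ?_⟩
      intro w hw
      rw [h0] at hw
      exact absurd hw (Finset.notMem_empty w)
    · obtain ⟨v, hv, hle⟩ := upp_vertex T W hne
      have hs := upp_split T W v hv
      have hlt : (W.filter (fun w => T.arc w v)).card < 2 ^ k := by
        rw [pow_succ] at hW
        omega
      obtain ⟨S, hS, hdom⟩ := ih _ hlt
      refine ⟨insert v S, le_trans (Finset.card_insert_le v S) (by omega), ?_⟩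
      intro w hw hwS
      rw [Finset.mem_insert, not_or] at hwS
      by_cases harc : T.arc v w
      · exact ⟨v, Finset.mem_insert_self v S, harc⟩
      · have harc' : T.arc w v := (T.exactlyOne w v hwS.1).2 harc
        obtain ⟨x, hx, hxa⟩ := hdom w (Finset.mem_filter.2 ⟨hw, harc'⟩) hwS.2
        exact ⟨x, Finset.mem_insert_of_mem hx, hxa⟩

end

theorem dom_le_log {V : Type} [Fintype V] [Nonempty V] (T : Tournament V) :
    domNumber T ≤ Nat.log 2 (Fintype.card V) + 1 := by
  obtain ⟨S, hS, hdom⟩ := upp_ind T (Nat.log 2 (Fintype.card V) + 1) Finset.univ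
    (by rw [Finset.card_univ]; exact Nat.lt_pow_succ_log_self (by norm_num) _)
  refine le_trans (Nat.sInf_le ?_) hS
  exact ⟨S, fun w hw => hdom w (Finset.mem_univ w) hw, rfl⟩

/-! ### Truth of the formulas -/

/-- Disjunction. -/
private def fOr {k : ℕ} (ι : Type) (φ : ι → Fml k) : Fml k := .neg (.conj ι fun i => .neg (φ i))

private theorem sat_fOr {V : Type} (T : Tournament V) {k : ℕ} (ι : Type) (φ : ι → Fml k) (a : Fin k → V) :
    Sat T (fOr ι φ) a ↔ ∃ i, Sat T (φ i) a := by
  unfold fOr
  simp only [Sat, not_forall, not_not]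

/-- Existential quantifier. -/
private def fEx {k : ℕ} (i : Fin k) (φ : Fml k) : Fml k := .atLeast 1 i φ

private theorem sat_fEx {V : Type} [Finite V] (T : Tournament V) {k : ℕ} (i : Fin k) (φ : Fml k) (a : Fin k → V) :
    Sat T (fEx i φ) a ↔ ∃ x, Sat T φ (Function.update a i x) := by
  unfold fEx
  simp only [Sat]
  rw [Nat.one_le_iff_ne_zero, ← Nat.pos_iff_ne_zero, Nat.card_pos_iff]
  constructor
  · rintro ⟨⟨x, hx⟩, _⟩
    exact ⟨x, hx⟩
  · rintro ⟨x, hx⟩
    exact ⟨⟨⟨x, hx⟩⟩, inferInstance⟩

/-- Universal quantifier. -/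
private def fAll {k : ℕ} (i : Fin k) (φ : Fml k) : Fml k := .neg (fEx i (.neg φ))

private theorem sat_fAll {V : Type} [Finite V] (T : Tournament V) {k : ℕ} (i : Fin k) (φ : Fml k) (a : Fin k → V) :
    Sat T (fAll i φ) a ↔ ∀ x, Sat T φ (Function.update a i x) := by
  unfold fAll
  simp only [Sat]
  rw [sat_fEx]
  simp only [Sat, not_exists, not_not]

/-- `∃ x_0 ... ∃ x_{j-1}`. -/
private def fExs {k : ℕ} : ℕ → Fml k → Fml k
  | 0, φ => φ
  | j + 1, φ => if h : j < k then fExs j (fEx ⟨j, h⟩ φ) else fExs j φ

private theorem sat_fExs {V : Type} [Finite V] (T : Tournament V) {k : ℕ} : ∀ (j : ℕ) (φ : Fml k) (a : Fin k → V),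
    Sat T (fExs j φ) a ↔ ∃ b : Fin k → V, (∀ i : Fin k, j ≤ i.val → b i = a i) ∧ Sat T φ b := by
  intro j
  induction j with
  | zero =>
    intro φ a
    constructor
    · intro h
      exact ⟨a, fun _ _ => rfl, h⟩
    · rintro ⟨b, hb, h⟩
      have : b = a := funext fun i => hb i (Nat.zero_le _)
      rw [this] at h
      exact h
  | succ j ih =>
    intro φ a
    unfold fExs
    by_cases hj : j < k
    · rw [dif_pos hj, ih]
      constructor
      · rintro ⟨b, hb, h⟩
        rw [sat_fEx] at h
        obtain ⟨x, hx⟩ := h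
        refine ⟨Function.update b ⟨j, hj⟩ x, ?_, hx⟩
        intro i hi
        have hne : i ≠ ⟨j, hj⟩ := by
          intro h
          rw [h] at hi
          exact absurd hi (by simp)
        rw [Function.update_of_ne hne]
        exact hb i (by omega)
      · rintro ⟨b, hb, h⟩
        refine ⟨Function.update b ⟨j, hj⟩ (a ⟨j, hj⟩), ?_, ?_⟩
        · intro i hi
          by_cases hij : i = ⟨j, hj⟩
          · rw [hij, Function.update_self]
          · rw [Function.update_of_ne hij]
            refine hb i ?_
            have : i.val ≠ j := fun h => hij (Fin.ext h)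
            omega
        · rw [sat_fEx]
          refine ⟨b ⟨j, hj⟩, ?_⟩
          rw [Function.update_idem, Function.update_eq_self]
          exact h
    · rw [dif_neg hj, ih]
      constructor
      · rintro ⟨b, _, h⟩
        exact ⟨b, fun i hi => absurd i.isLt (by omega), h⟩
      · rintro ⟨b, _, h⟩
        exact ⟨b, fun i hi => absurd i.isLt (by omega), h⟩

theorem suffices_upper (n : ℕ) : Suffices n (Nat.log 2 n + 1) := by
  intro d
  by_cases hd : Nat.log 2 n + 1 ≤ d
  · refine ⟨.conj Empty (fun e => e.elim), ?_⟩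
    intro V _ hV T a
    haveI : Nonempty V := ⟨a 0⟩
    constructor
    · intro _
      refine le_trans (dom_le_log T) ?_
      rw [hV]
      exact hd
    · intro _
      intro e
      exact e.elim
  · rw [not_le] at hd
    refine ⟨fExs d (fAll ⟨d, hd⟩ (fOr (Fin d) fun i =>
      fOr Bool fun t => if t then .eq ⟨i.val, lt_trans i.isLt hd⟩ ⟨d, hd⟩ else .arc ⟨i.val, lt_trans i.isLt hd⟩ ⟨d, hd⟩)), ?_⟩
    intro V _ hV T a
    have key : ∀ b : Fin (Nat.log 2 n + 1) → V,
        Sat T (fAll ⟨d, hd⟩ (fOr (Fin d) fun i => fOr Bool fun t =>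
          if t then .eq ⟨i.val, lt_trans i.isLt hd⟩ ⟨d, hd⟩ else .arc ⟨i.val, lt_trans i.isLt hd⟩ ⟨d, hd⟩)) b ↔
        ∀ x, ∃ i : Fin d, b ⟨i.val, lt_trans i.isLt hd⟩ = x ∨ T.arc (b ⟨i.val, lt_trans i.isLt hd⟩) x := by
      intro b
      rw [sat_fAll]
      refine forall_congr' fun x => ?_
      rw [sat_fOr]
      refine exists_congr fun i => ?_
      rw [sat_fOr, Bool.exists_bool]
      have hne : (⟨i.val, lt_trans i.isLt hd⟩ : Fin (Nat.log 2 n + 1)) ≠ ⟨d, hd⟩ := by
        intro h
        have := congrArg Fin.val h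
        have h2 := i.isLt
        simp only at this
        omega
      simp only [Bool.false_eq_true, if_false, if_true, Sat, Function.update_self, Function.update_of_ne hne]
      exact or_comm
    rw [sat_fExs]
    constructor
    · rintro ⟨b, _, hb⟩
      rw [key] at hb
      classical
      let S : Finset V := Finset.univ.image (fun i : Fin d => b ⟨i.val, lt_trans i.isLt hd⟩)
      have hdom : IsDominating T S := by
        intro w hw
        obtain ⟨i, hi⟩ := hb w
        rcases hi with hi | hi
        · exact absurd (Finset.mem_image.2 ⟨i, Finset.mem_univ i, hi⟩) hw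
        · exact ⟨_, Finset.mem_image.2 ⟨i, Finset.mem_univ i, rfl⟩, hi⟩
      refine le_trans (Nat.sInf_le ⟨S, hdom, rfl⟩) ?_
      refine le_trans Finset.card_image_le ?_
      rw [Finset.card_univ, Fintype.card_fin]
    · intro hdn
      have hne : {m : ℕ | ∃ S : Finset V, IsDominating T S ∧ S.card = m}.Nonempty :=
        ⟨_, Finset.univ, fun w hw => absurd (Finset.mem_univ w) hw, rfl⟩
      obtain ⟨S, hS, hcard⟩ := Nat.sInf_mem hne
      have hSd : S.card ≤ d := by
        rw [hcard]
        exact hdn
      have hSne : S.Nonempty := by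
        by_contra h
        rw [Finset.not_nonempty_iff_eq_empty] at h
        obtain ⟨v, hv, _⟩ := hS (a 0) (by rw [h]; exact Finset.notMem_empty _)
        rw [h] at hv
        exact Finset.notMem_empty _ hv
      have hcpos : 0 < S.card := Finset.card_pos.2 hSne
      let e := S.equivFin
      let b : Fin (Nat.log 2 n + 1) → V := fun i =>
        if h : i.val < S.card then (e.symm ⟨i.val, h⟩ : V) else
          if i.val < d then (e.symm ⟨0, hcpos⟩ : V) else a i
      refine ⟨b, ?_, ?_⟩
      · intro i hi
        have h1 : ¬ i.val < S.card := by omega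
        have h2 : ¬ i.val < d := by omega
        simp only [b]
        rw [dif_neg h1, if_neg h2]
      · rw [key]
        intro x
        have hmem : ∀ y ∈ S, ∃ i : Fin d, b ⟨i.val, lt_trans i.isLt hd⟩ = y := by
          intro y hy
          have hlt : (e ⟨y, hy⟩).val < S.card := (e ⟨y, hy⟩).isLt
          refine ⟨⟨(e ⟨y, hy⟩).val, by omega⟩, ?_⟩
          simp only [b]
          rw [dif_pos hlt]
          simp only [Fin.eta, Equiv.symm_apply_apply]
        by_cases hx : x ∈ S
        · obtain ⟨i, hi⟩ := hmem x hx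
          exact ⟨i, Or.inl hi⟩
        · obtain ⟨v, hv, hvx⟩ := hS x hx
          obtain ⟨i, hi⟩ := hmem v hv
          exact ⟨i, Or.inr (by rw [hi]; exact hvx)⟩

end Pool.Agent.Lib.MP_66cd2e_lc.CL
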