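import Pool.Agent.Lib.MP_66cd2e_lc.CL.Game
import Pool.Agent.Lib.MP_66cd2e_lc.CL.Dom
import Pool.Agent.Lib.MP_66cd2e_lc.CL.Ers
import Pool.Agent.Lib.MP_66cd2e_lc.CL.Bas
import Pool.Agent.Lib.MP_66cd2e_lc.CL.Upp
import Pool.Agent.Lib.MP_66cd2e_lc.CL.Asy

/-!
# The number of variables
-/

set_option autoImplicit false

namespace Pool.Agent.Lib.MP_66cd2e_lc.CL

open Pool.Agent.Lib.MP_66cd2e_lc Filter Topology

section

variable {m N e : ℕ}

/-- Padding. -/
def padE (m N e : ℕ) : Pre m N e ≃ Pre m N 0 ⊕ Fin e where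
  toFun
    | .z => Sum.inl .z
    | .r x i => Sum.inl (.r x i)
    | .g u a => Sum.inl (.g u a)
    | .w u j q => Sum.inl (.w u j q)
    | .p i => Sum.inr i
  invFun
    | .inl .z => .z
    | .inl (.r x i) => .r x i
    | .inl (.g u a) => .g u a
    | .inl (.w u j q) => .w u j q
    | .inl (.p i) => i.elim0
    | .inr i => .p i
  left_inv x := by cases x <;> rfl
  right_inv x := by
    rcases x with x | i
    · cases x with
      | p i => exact i.elim0
      | z => rfl
      | r _ _ => rfl
      | g _ _ => rfl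
      | w _ _ _ => rfl
    · rfl

theorem card_pad (G : SimpleGraph (Fin m)) (c : Fin m → ZMod 3) :
    Nat.card {x : Pre m N e // Valid G c x} = Nat.card {x : Pre m N 0 // Valid G c x} + e := by
  have h1 : {x : Pre m N e // Valid G c x} ≃ {s : Pre m N 0 ⊕ Fin e // Sum.elim (Valid G c) (fun _ => True) s} :=
    (padE m N e).subtypeEquiv fun x => by cases x <;> exact Iff.rfl
  have h2 : {s : Pre m N 0 ⊕ Fin e // Sum.elim (Valid G c) (fun _ => True) s} ≃
      {x : Pre m N 0 // Valid G c x} ⊕ Fin e :=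
    Equiv.subtypeSum.trans (Equiv.sumCongr (Equiv.refl _) (Equiv.subtypeUnivEquiv fun _ => trivial))
  rw [Nat.card_congr (h1.trans h2), Nat.card_sum, Nat.card_eq_fintype_card (α := Fin e), Fintype.card_fin]

theorem card_le (G : SimpleGraph (Fin m)) (hdeg : ∀ u, 2 * Nat.card {v // G.Adj u v} ≤ m)
    (c : Fin m → ZMod 3) :
    Nat.card {x : Pre m N 0 // Valid G c x} ≤ 1 + N * (m + 1) + m * 3 ^ (m / 2) + 9 * m ^ 2 := by
  classical
  have hinj : Function.Injective (fun x : {x : Pre m N 0 // Valid G c x} => (match x.1 with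
    | .z => Sum.inl ()
    | .r x i => Sum.inr (Sum.inl (x, i))
    | .g u a => Sum.inr (Sum.inr (Sum.inl ⟨u, fun v => a v.1⟩))
    | .w u j q => Sum.inr (Sum.inr (Sum.inr (u, j, q)))
    | .p i => i.elim0 :
      Unit ⊕ (Fin N × Option (Fin m)) ⊕ ((u : Fin m) × ({v // G.Adj u v} → ZMod 3)) ⊕
        (Fin m × Fin m × (ZMod 3 × ZMod 3)))) := by
    rintro ⟨x, hx⟩ ⟨y, hy⟩ hxy
    cases x with
    | p i => exact i.elim0
    | z => cases y with
      | p i => exact i.elim0
      | z => rfl
      | r _ _ => exact absurd hxy (by simp)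
      | g _ _ => exact absurd hxy (by simp)
      | w _ _ _ => exact absurd hxy (by simp)
    | r a i => cases y with
      | p i => exact i.elim0
      | z => exact absurd hxy (by simp)
      | r b j =>
        apply Subtype.ext
        simp only [Sum.inr.injEq, Sum.inl.injEq, Prod.mk.injEq] at hxy
        rw [hxy.1, hxy.2]
      | g _ _ => exact absurd hxy (by simp)
      | w _ _ _ => exact absurd hxy (by simp)
    | g u a => cases y with
      | p i => exact i.elim0
      | z => exact absurd hxy (by simp)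
      | r _ _ => exact absurd hxy (by simp)
      | g v b =>
        apply Subtype.ext
        simp only [Sum.inr.injEq, Sum.inl.injEq, Sigma.mk.injEq] at hxy
        obtain ⟨h1, h2⟩ := hxy
        subst h1
        have h3 := eq_of_heq h2
        have h4 : a = b := by
          funext j
          by_cases hj : G.Adj u j
          · exact congrFun h3 ⟨j, hj⟩
          · rw [hx.1 j hj, hy.1 j hj]
        change Pre.g u a = Pre.g u b
        rw [h4]
      | w _ _ _ => exact absurd hxy (by simp)
    | w u j q => cases y with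
      | p i => exact i.elim0
      | z => exact absurd hxy (by simp)
      | r _ _ => exact absurd hxy (by simp)
      | g _ _ => exact absurd hxy (by simp)
      | w u' j' q' =>
        apply Subtype.ext
        simp only [Sum.inr.injEq, Prod.mk.injEq] at hxy
        obtain ⟨h1, h2, h3⟩ := hxy
        change Pre.w u j q = Pre.w u' j' q'
        rw [h1, h2, h3]
  refine (Nat.card_le_card_of_injective _ hinj).trans ?_
  have h1 : Nat.card ((u : Fin m) × ({v // G.Adj u v} → ZMod 3)) ≤ m * 3 ^ (m / 2) := by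
    rw [Nat.card_sigma]
    have h2 : ∀ u ∈ (Finset.univ : Finset (Fin m)), Nat.card ({v // G.Adj u v} → ZMod 3) ≤ 3 ^ (m / 2) := by
      intro u _
      rw [Nat.card_fun, Nat.card_eq_fintype_card (α := ZMod 3), ZMod.card]
      refine Nat.pow_le_pow_right (by norm_num) ?_
      have := hdeg u
      omega
    refine (Finset.sum_le_sum h2).trans ?_
    rw [Finset.sum_const, Finset.card_univ, Fintype.card_fin, smul_eq_mul]
  have h2 : Nat.card (Fin N × Option (Fin m)) = N * (m + 1) := by
    rw [Nat.card_eq_fintype_card, Fintype.card_prod, Fintype.card_fin, Fintype.card_option, Fintype.card_fin]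
  have h3 : Nat.card (Fin m × Fin m × (ZMod 3 × ZMod 3)) = 9 * m ^ 2 := by
    rw [Nat.card_eq_fintype_card, Fintype.card_prod, Fintype.card_prod, Fintype.card_prod, Fintype.card_fin,
      ZMod.card]
    ring
  have h4 : Nat.card Unit = 1 := by
    rw [Nat.card_eq_fintype_card]
    rfl
  rw [Nat.card_sum, Nat.card_sum, Nat.card_sum, h2, h3, h4]
  omega

theorem not_suffices {h k n : ℕ} (G : SimpleGraph (Fin m)) (hdeg : ∀ u, 2 * Nat.card {v // G.Adj u v} ≤ m)
    (hG : Hole G h) (Q : Tournament (Fin N)) (hQ : Dom Q (m + 1)) (hk : k + 3 * h + 1 ≤ m)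
    (hm : 3 * h + 2 ≤ m) (hn : 1 + N * (m + 1) + m * 3 ^ (m / 2) + 9 * m ^ 2 ≤ n) : ¬ Suffices n k := by
  classical
  intro hS
  obtain ⟨us, hus⟩ := bt_nonempty hG (X := ∅) (by rw [Finset.card_empty]; omega)
  obtain ⟨e, he⟩ : ∃ e, Nat.card {x : Pre m N 0 // Valid G 0 x} + e = n :=
    ⟨_, Nat.add_sub_cancel' ((card_le G hdeg 0).trans hn)⟩
  obtain ⟨φ, hφ⟩ := hS (m + 1)
  let _ : Fintype {x : Pre m N e // Valid G 0 x} := Fintype.ofFinite _
  let _ : Fintype {x : Pre m N e // Valid G (Pi.single us 1) x} := Fintype.ofFinite _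
  have h1 : Fintype.card {x : Pre m N e // Valid G 0 x} = n := by
    rw [← Nat.card_eq_fintype_card, card_pad, he]
  have h2 : Fintype.card {x : Pre m N e // Valid G (Pi.single us 1) x} = n := by
    obtain ⟨f⟩ := card_eq (N := N) (e := e) hG hm hus
    rw [← Nat.card_eq_fintype_card, ← Nat.card_congr f, card_pad, he]
  have h3 := hφ _ h1 (TT G Q e 0) (fun _ => zz G 0)
  have h4 := hφ _ h2 (TT G Q e (Pi.single us 1)) (fun _ => zz G _)
  have h5 := game (e := e) hG Q hk hus φ
  have h6 : Sat (TT G Q e (Pi.single us 1)) φ (fun _ => zz G _) := h5.1 (h3.2 (dom_le G Q))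
  have h7 := h4.1 h6
  have h8 : m + 1 < domNumber (TT G Q e (Pi.single us 1)) := by
    refine dom_gt G Q hQ ?_
    rw [Finset.sum_pi_single' us 1 Finset.univ, if_pos (Finset.mem_univ _)]
    decide
  omega

end

theorem varNumber_le (n : ℕ) : varNumber n ≤ Nat.log 2 n + 1 := Nat.sInf_le (suffices_upper n)

/-- The number of variables of counting logic needed for the domination number of the tournaments with `n` vertices
is asymptotic to `log₂ n`. -/
theorem main : Tendsto (fun n : ℕ => (varNumber n : ℝ) / Real.logb 2 n) atTop (𝓝 1) := by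
  refine asy varNumber varNumber_le fun ρ b n hn => ?_
  by_contra hcon
  push Not at hcon
  obtain ⟨G, hdeg, hG⟩ := exists_base ρ b
  obtain ⟨Q, hQ⟩ := exists_dom (4 ^ ρ * b + 1) (by omega)
  have h1 : Suffices n (varNumber n) := Nat.sInf_mem (s := {k | Suffices n k}) ⟨_, suffices_upper n⟩
  exact not_suffices G hdeg hG Q hQ (by omega) (by omega) hn h1

end Pool.Agent.Lib.MP_66cd2e_lc.CL
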